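import Pool.Agent.Shared.PolyTimeConv

/-!
Polynomial time closure lemmas for finite types and for tuples.
-/

noncomputable section

namespace Pool.Agent.Shared.PCP

open Pool.Agent.Shared.PolyTime N487b59b3

instance encFin (n : ℕ) : N487b59b3 (Fin n) :=
  ofLeftInverse Fin.val (fun k => if h : k < n then some ⟨k, h⟩ else none) (fun x => by simp)

instance encZMod (n : ℕ) [NeZero n] : N487b59b3 (ZMod n) :=
  ofLeftInverse ZMod.val (fun k => some (k : ZMod n)) (fun x => by simp)

open Classical in
instance encFun {ι β : Type} [Fintype ι] [N487b59b3 β] : N487b59b3 (ι → β) :=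
  ofLeftInverse (fun f => (Finset.univ : Finset ι).toList.map f)
    (fun l => if h : ∃ f : ι → β, (Finset.univ : Finset ι).toList.map f = l then some h.choose
      else none) (fun f => by
    have h : ∃ g : ι → β, (Finset.univ : Finset ι).toList.map g =
      (Finset.univ : Finset ι).toList.map f := ⟨f, rfl⟩
    rw [dif_pos h]
    congr 1
    funext i
    exact List.map_inj_left.1 h.choose_spec i (by simp))

variable {α β κ ι : Type} [N487b59b3 α] [N487b59b3 β] [N487b59b3 κ]

theorem PT.finite_cases [Finite κ] {k : α → κ} (hk : PT k) {f : κ → α → β} (hf : ∀ c, PT (f c)) :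
    PT (fun a => f (k a) a) := by
  classical
  rcases isEmpty_or_nonempty κ with h0 | ⟨⟨c0⟩⟩
  · exact RP.congr RP.refl fun a => (h0.false (k a)).elim
  have key : ∀ l : List κ, ∃ g : α → β, PT g ∧ ∀ a, k a ∈ l → g a = f (k a) a := by
    intro l
    induction l with
    | nil => exact ⟨f c0, hf c0, by simp⟩
    | cons c l ih =>
      obtain ⟨g, hg, h⟩ := ih
      refine ⟨fun a => if k a = c then f c a else g a,
        PT.ite (PT.decide_eq hk (PT.const c)) (hf c) hg, fun a ha => ?_⟩
      dsimp only
      split_ifs with h1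
      · rw [h1]
      · exact h a (by simpa [h1] using ha)
  have := Fintype.ofFinite κ
  obtain ⟨g, hg, h⟩ := key Finset.univ.toList
  exact hg.of_eq fun a => h a (by simp)

theorem PT.ofFinite [Finite κ] (F : κ → β) {k : α → κ} (hk : PT k) : PT (fun a => F (k a)) :=
  PT.finite_cases hk (f := fun c _ => F c) fun c => PT.const (F c)

theorem PT.of_some {f : α → β} (h : PT (fun a => some (f a))) : PT f :=
  (RP.fstR.post h).congr fun a => by
    rw [enc_option, Option.toList_some, enc_cons, fstR_delimit]

theorem PT.map_fixed {f : α → ι → β} (h : ∀ i, PT (fun a => f a i)) (l : List ι) :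
    PT (fun a => l.map (f a)) := by
  induction l with
  | nil => exact PT.const []
  | cons i l ih => exact (h i).cons ih

theorem PT.pi [Fintype ι] {f : α → ι → β} (h : ∀ i, PT (fun a => f a i)) : PT f :=
  (PT.map_fixed h _).of_enc fun _ => rfl

theorem PT.apply [Fintype ι] {f : α → ι → β} (h : PT f) (i : ι) : PT (fun a => f a i) := by
  classical
  have h1 : PT (fun a => (Finset.univ : Finset ι).toList.map (f a)) := h.of_enc fun _ => rfl
  refine PT.of_some ((PT.getElem? (PT.const ((Finset.univ : Finset ι).toList.idxOf i)) h1).of_eq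
    fun a => ?_)
  rw [List.getElem?_map, List.getElem?_idxOf (by simp)]
  rfl

theorem PT.app [Fintype ι] [N487b59b3 ι] {f : α → ι → β} {k : α → ι} (h : PT f) (hk : PT k) :
    PT (fun a => f a (k a)) :=
  PT.finite_cases hk (f := fun c a => f a c) (PT.apply h)

theorem PT.finVal {n : ℕ} {f : α → Fin n} (h : PT f) : PT (fun a => (f a).val) :=
  h.of_enc fun _ => rfl

theorem PT.toFin {n : ℕ} {f : α → Fin n} (h : PT (fun a => (f a).val)) : PT f :=
  h.of_enc fun _ => rfl

theorem sz_fun_le [Fintype ι] {f : ι → β} {B : ℕ} (h : ∀ i, sz (f i) ≤ B) :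
    sz f ≤ Fintype.card ι * (2 * B + 1) := by
  have : sz ((Finset.univ : Finset ι).toList.map f) ≤ _ := sz_list_le (B := B) fun a ha => by
    obtain ⟨i, -, rfl⟩ := List.mem_map.1 ha; exact h i
  rw [List.length_map, Finset.length_toList, Finset.card_univ] at this
  exact this

/-- All tuples with entries from a list. -/
def tuples {β : Type} : (k : ℕ) → List β → List (Fin k → β)
  | 0, _ => [Fin.elim0]
  | k + 1, l => l.flatMap fun x => (tuples k l).map fun t => Fin.cons x t

theorem tuples_pt (k : ℕ) {l : α → List β} (hl : PT l) : PT (fun a => tuples k (l a)) := by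
  induction k with
  | zero => exact PT.const _
  | succ k ih =>
    refine PT.flatMap hl (PT.map (l := fun p : α × β => tuples k (l p.1))
      (h := fun p t => (Fin.cons p.2 t : Fin (k + 1) → β)) (ih.comp' (by fun_prop)) ?_)
    refine PT.pi fun i => ?_
    refine Fin.cases ?_ (fun j => ?_) i
    · simp only [Fin.cons_zero]; fun_prop
    · simp only [Fin.cons_succ]; exact PT.apply (by fun_prop) j

omit [N487b59b3 β] in
theorem mem_tuples {k : ℕ} {l : List β} {t : Fin k → β} : t ∈ tuples k l ↔ ∀ i, t i ∈ l := by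
  induction k with
  | zero => simp [tuples, Subsingleton.elim t Fin.elim0]
  | succ k ih =>
    simp only [tuples, List.mem_flatMap, List.mem_map, ih, Fin.forall_fin_succ]
    constructor
    · rintro ⟨x, hx, s, hs, rfl⟩; exact ⟨hx, hs⟩
    · rintro ⟨h1, h2⟩; exact ⟨t 0, h1, Fin.tail t, h2, Fin.cons_self_tail t⟩

omit [N487b59b3 β] in
theorem nodup_tuples (k : ℕ) {l : List β} (h : l.Nodup) : (tuples k l).Nodup := by
  induction k with
  | zero => simp [tuples]
  | succ k ih =>
    rw [tuples, List.nodup_flatMap]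
    refine ⟨fun x _ => ih.map (fun s t e => funext fun i => by simpa using congrFun e i.succ), h.imp fun {x y} hxy => ?_⟩
    intro t h1 h2
    obtain ⟨s, -, rfl⟩ := List.mem_map.1 h1
    obtain ⟨s', -, e⟩ := List.mem_map.1 h2
    exact hxy (by simpa using (congrFun e 0).symm)

theorem sqrt_eq_countP (n : ℕ) :
    Nat.sqrt n + 1 = (List.range (n + 1)).countP fun j => decide (j * j ≤ n) := by
  have h : ∀ j, j * j ≤ n ↔ j < Nat.sqrt n + 1 := fun j => by rw [Nat.lt_succ_iff, Nat.le_sqrt]
  simp only [h]
  have h2 : Nat.sqrt n + 1 ≤ n + 1 := Nat.succ_le_succ (Nat.sqrt_le_self n)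
  obtain ⟨c, hc⟩ := Nat.exists_eq_add_of_le h2
  rw [hc, List.range_add, List.countP_append, List.countP_eq_length.2 (by simp),
    List.countP_eq_zero.2 (by simp; omega)]
  simp

theorem PT.sqrt_succ {n : α → ℕ} (hn : PT n) (hb : PB n) : PT (fun a => Nat.sqrt (n a) + 1) := by
  simp only [sqrt_eq_countP]
  fun_prop

end Pool.Agent.Shared.PCP
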