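import Pool.Agent.Shared.PCP.Prob

/-!
Parallel repetition of expanding projection games, by the analytic method.
-/

set_option linter.unusedSectionVars false

noncomputable section

namespace Pool.Agent.Shared.PCP

open Finset

/-- A projection game seen from the side of the small labels. -/
structure Game (U D V A B : Type) where
  nb : U → D → V
  pj : U → D → B → A

namespace Game

variable {U D V A B U' D' V' A' B' : Type} [Fintype U] [Fintype D] [Fintype V] [Fintype A]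
  [Fintype B] [Fintype U'] [Fintype D'] [Fintype V'] [Fintype A'] [Fintype B']

/-- The operator of the game. -/
def op (G : Game U D V A B) (q : V → B → ℝ) (u : U) (α : A) : ℝ :=
  Ex fun d => ∑ β, ind (G.pj u d β = α) * q (G.nb u d) β

/-- The squared norm of the image of a strategy. -/
def nrm (G : Game U D V A B) (q : V → B → ℝ) : ℝ := Ex fun u => ∑ α, G.op q u α ^ 2

/-- Collision value at most `c`. -/
def Coll (G : Game U D V A B) (c : ℝ) : Prop :=
  ∀ q : V → B → ℝ, (∀ v β, 0 ≤ q v β) → (∀ v, ∑ β, q v β ≤ 1) → G.nrm q ≤ c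

/-- Relaxed value at most `l`. -/
def Lam (G : Game U D V A B) (l : ℝ) : Prop :=
  ∀ q : V → B → ℝ, (∀ v β, 0 ≤ q v β) → G.nrm q ≤ l * Ex fun v => (∑ β, q v β) ^ 2

/-- Regularity on the side of the large labels. -/
def Reg (G : Game U D V A B) : Prop :=
  ∀ g : V → ℝ, Ex (fun u => Ex fun d => g (G.nb u d)) = Ex g

/-- The product of two games. -/
def prod (G : Game U D V A B) (H : Game U' D' V' A' B') :
    Game (U × U') (D × D') (V × V') (A × A') (B × B') where
  nb u d := (G.nb u.1 d.1, H.nb u.2 d.2)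
  pj u d β := (G.pj u.1 d.1 β.1, H.pj u.2 d.2 β.2)

/-- The repeated game. -/
def rep (G : Game U D V A B) (k : ℕ) :
    Game (Fin k → U) (Fin k → D) (Fin k → V) (Fin k → A) (Fin k → B) where
  nb u d j := G.nb (u j) (d j)
  pj u d β j := G.pj (u j) (d j) (β j)

theorem op_nonneg (G : Game U D V A B) {q : V → B → ℝ} (h : ∀ v β, 0 ≤ q v β) (u : U) (α : A) :
    0 ≤ G.op q u α := Ex_nonneg fun _ => sum_nonneg fun _ _ => mul_nonneg (ind_nonneg _) (h _ _)

theorem sum_op (G : Game U D V A B) (q : V → B → ℝ) (u : U) :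
    ∑ α, G.op q u α = Ex fun d => ∑ β, q (G.nb u d) β := by
  unfold op
  rw [← Ex_sum]
  refine Ex_congr fun d => ?_
  rw [sum_comm]
  simp only [← sum_mul, sum_ind_eq_one, one_mul]

theorem op_prod (G : Game U D V A B) (H : Game U' D' V' A' B') (q : V × V' → B × B' → ℝ)
    (u : U) (u' : U') (α : A) (α' : A') : (G.prod H).op q (u, u') (α, α') =
      G.op (fun v β => H.op (fun v' β' => q (v, v') (β, β')) u' α') u α := by
  unfold op
  rw [Ex_prod]
  refine Ex_congr fun d => ?_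
  simp only [prod, Fintype.sum_prod_type, Prod.mk.injEq, ind_and, mul_assoc, ← mul_sum, Ex_sum,
    Ex_mul_left]

theorem coll_prod {G : Game U D V A B} {H : Game U' D' V' A' B'} {l c : ℝ} (hl : 0 ≤ l)
    (hc : 0 ≤ c) (hG : G.Lam l) (hH : H.Coll c) : (G.prod H).Coll (l * c) := by
  intro q h0 h1
  have e : (G.prod H).nrm q = Ex fun u' => ∑ α', G.nrm
      (fun v β => H.op (fun v' β' => q (v, v') (β, β')) u' α') := by
    unfold nrm
    rw [Ex_prod']
    refine Ex_congr fun u' => ?_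
    simp only [Fintype.sum_prod_type_right, op_prod, Ex_sum]
  rw [e]
  refine (Ex_mono fun u' => sum_le_sum fun α' _ => hG _ fun v β =>
    H.op_nonneg (fun _ _ => h0 _ _) _ _).trans ?_
  simp only [← mul_sum, Ex_mul_left, ← Ex_sum]
  refine mul_le_mul_of_nonneg_left ?_ hl
  rw [Ex_comm]
  refine Ex_le_const hc fun v => le_of_eq_of_le ?_ (hH (fun v' β' => ∑ β, q (v, v') (β, β'))
    (fun _ _ => sum_nonneg fun _ _ => h0 _ _)
    (fun v' => by simpa only [Fintype.sum_prod_type_right] using h1 (v, v')))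
  refine Ex_congr fun u' => sum_congr rfl fun α' _ => ?_
  congr 1
  unfold op
  rw [← Ex_sum]
  refine Ex_congr fun d => ?_
  rw [sum_comm]
  simp only [mul_sum]

theorem coll_equiv {G : Game U D V A B} {H : Game U' D' V' A' B'} (eU : U ≃ U') (eD : D ≃ D')
    (eV : V ≃ V') (eA : A ≃ A') (eB : B ≃ B') (h1 : ∀ u d, H.nb (eU u) (eD d) = eV (G.nb u d))
    (h2 : ∀ u d β, H.pj (eU u) (eD d) (eB β) = eA (G.pj u d β)) {c : ℝ} (h : G.Coll c) :
    H.Coll c := by
  intro q q0 q1
  refine le_of_eq_of_le ?_ (h (fun v β => q (eV v) (eB β)) (fun _ _ => q0 _ _)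
    (fun v => by rw [eB.sum_comp (q (eV v))]; exact q1 _))
  unfold nrm
  rw [← Ex_equiv eU]
  refine Ex_congr fun u => ?_
  rw [← eA.sum_comp]
  refine sum_congr rfl fun α _ => ?_
  congr 1
  unfold op
  rw [← Ex_equiv eD]
  refine Ex_congr fun d => ?_
  rw [← eB.sum_comp]
  simp only [h1, h2, EmbeddingLike.apply_eq_iff_eq]

theorem coll_one (G : Game U D V A B) : G.Coll 1 := by
  intro q q0 q1
  refine Ex_le_const zero_le_one fun u => ?_
  have h1 : ∑ α, G.op q u α ≤ 1 := (G.sum_op q u).trans_le (Ex_le_const zero_le_one fun _ => q1 _)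
  refine le_trans (sum_le_sum fun α _ => ?_) h1
  have h2 := G.op_nonneg q0 u α
  have h3 := (single_le_sum (fun α _ => G.op_nonneg q0 u α) (mem_univ α)).trans h1
  nlinarith

/-- **Parallel repetition.** -/
theorem coll_rep {G : Game U D V A B} {l : ℝ} (hl : 0 ≤ l) (hG : G.Lam l) (k : ℕ) :
    (G.rep k).Coll (l ^ k) := by
  induction k with
  | zero => rw [pow_zero]; exact coll_one _
  | succ k ih =>
    rw [pow_succ']
    refine coll_equiv (Fin.consEquiv fun _ => U) (Fin.consEquiv fun _ => D)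
      (Fin.consEquiv fun _ => V) (Fin.consEquiv fun _ => A) (Fin.consEquiv fun _ => B)
      (fun u d => ?_) (fun u d β => ?_) (coll_prod hl (by positivity) hG ih)
    · funext j; refine Fin.cases rfl (fun _ => rfl) j
    · funext j; refine Fin.cases rfl (fun _ => rfl) j

theorem reg_rep {G : Game U D V A B} (hG : G.Reg) (k : ℕ) : (G.rep k).Reg := by
  induction k with
  | zero =>
    intro g
    simp only [Subsingleton.elim ((G.rep 0).nb _ _) default, Ex_const]
    exact ((Ex_congr fun v => by rw [Subsingleton.elim v default]).trans (Ex_const _)).symm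
  | succ k ih =>
    intro g
    rw [← Ex_equiv (Fin.consEquiv fun _ => U), ← Ex_equiv (Fin.consEquiv fun _ => V), Ex_prod,
      Ex_prod, ← hG]
    refine Ex_congr fun u => ?_
    simp only [← Ex_equiv (Fin.consEquiv fun _ : Fin (k + 1) => D), Ex_prod]
    rw [Ex_comm]
    refine Ex_congr fun d => ?_
    rw [← ih]
    refine Ex_congr fun u' => Ex_congr fun d' => ?_
    congr 1
    funext j; refine Fin.cases rfl (fun _ => rfl) j

/-- The relaxed value of an expanding game. -/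
theorem lam_of_coll [Nonempty U] [Nonempty D] [Nonempty V] [Nonempty B] {G : Game U D V A B}
    (hR : G.Reg) {γ ε : ℝ} (hγ : 0 ≤ γ) (hε : 0 < ε) (hε1 : ε ≤ 1) (hγ1 : γ ≤ 1)
    (hS : ∀ r : V → ℝ, Ex r = 0 →
      Ex (fun u => Ex (fun d => r (G.nb u d)) ^ 2) ≤ (1 - γ) * Ex fun v => r v ^ 2)
    (hC : G.Coll (1 - ε)) : G.Lam (1 - γ * ε ^ 2 / 12) := by
  intro h h0
  set g : V → ℝ := fun v => ∑ β, h v β with hg
  have g0 : ∀ v, 0 ≤ g v := fun v => sum_nonneg fun _ _ => h0 _ _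
  have hB := card_pos_real (α := B)
  let p : V → B → ℝ := fun v β => if g v = 0 then 1 / Fintype.card B else h v β / g v
  have p0 : ∀ v β, 0 ≤ p v β := fun v β => by
    simp only [p]; split_ifs
    · positivity
    · exact div_nonneg (h0 _ _) (g0 _)
  have p1 : ∀ v, ∑ β, p v β = 1 := fun v => by
    simp only [p]; split_ifs with h1
    · simp [hB.ne']
    · rw [← sum_div]; exact div_self h1
  have p2 : ∀ v β, h v β = g v * p v β := fun v β => by
    simp only [p]; split_ifs with h1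
    · rw [h1, zero_mul]
      exact (sum_eq_zero_iff_of_nonneg fun _ _ => h0 _ _).1 h1 β (mem_univ _)
    · field_simp
  let W : U → D → A → ℝ := fun u d α => ∑ β, ind (G.pj u d β = α) * p (G.nb u d) β
  have W0 : ∀ u d α, 0 ≤ W u d α := fun u d α =>
    sum_nonneg fun _ _ => mul_nonneg (ind_nonneg _) (p0 _ _)
  have W1 : ∀ u d, ∑ α, W u d α = 1 := fun u d => by
    rw [sum_comm]; simp only [← sum_mul, sum_ind_eq_one, one_mul, p1]
  let Q : U → D → D → ℝ := fun u d d' => ∑ α, W u d α * W u d' α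
  have Q0 : ∀ u d d', 0 ≤ Q u d d' := fun u d d' =>
    sum_nonneg fun _ _ => mul_nonneg (W0 _ _ _) (W0 _ _ _)
  have Q1 : ∀ u d d', Q u d d' ≤ 1 := fun u d d' => (sum_le_sum fun α _ =>
    mul_le_of_le_one_right (W0 _ _ _) ((single_le_sum (fun α _ => W0 u d' α)
      (mem_univ α)).trans_eq (W1 u d'))).trans_eq (W1 u d)
  have e1 : G.nrm h = Ex fun u => Ex fun d => Ex fun d' =>
      g (G.nb u d) * g (G.nb u d') * Q u d d' := by
    refine Ex_congr fun u => ?_
    simp only [op, sq, ← Ex_mul_Ex, ← Ex_sum, Q, mul_sum]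
    refine Ex_congr fun d => Ex_congr fun d' => sum_congr rfl fun α _ => ?_
    simp only [p2, mul_left_comm (ind _), ← mul_sum, W]; ring
  have e2 : G.nrm p = Ex fun u => Ex fun d => Ex fun d' => Q u d d' := by
    refine Ex_congr fun u => ?_
    simp only [op, sq, ← Ex_mul_Ex, ← Ex_sum]
    rfl
  have h2 := hC p p0 fun v => (p1 v).le
  rw [e2] at h2
  set m := Ex g with hm
  have h3 := hS (fun v => g v - m) (by rw [Ex_sub, Ex_const, sub_self])
  set ρ := Ex fun v => (g v - m) ^ 2 with hρ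
  have ρ0 : 0 ≤ ρ := Ex_nonneg fun _ => sq_nonneg _
  have e3 : Ex (fun v => g v ^ 2) = m ^ 2 + ρ := by
    simp only [hρ, sub_sq, Ex_add, Ex_sub, Ex_mul_left, Ex_mul_right, Ex_const, ← hm]; ring
  have e4 : Ex (fun u => Ex fun d => Ex fun d' => g (G.nb u d) * g (G.nb u d')) ≤
      m ^ 2 + (1 - γ) * ρ := by
    simp only [Ex_mul_Ex, ← sq]
    simp only [Ex_sub, Ex_const, sub_sq, Ex_add, Ex_mul_left, Ex_mul_right, hR g, ← hm] at h3
    linarith
  have e5 : ∀ x y Q : ℝ, 0 ≤ Q → Q ≤ 1 → m ^ 2 * (1 - Q) - ε / 2 * m ^ 2 -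
      (1 / ε + 1 / 2) * ((x - m) ^ 2 + (y - m) ^ 2) ≤ x * y * (1 - Q) := by
    intro x y Q a b
    have c1 : ∀ z : ℝ, -(ε / 4 * m ^ 2 + 1 / ε * z ^ 2) ≤ m * z := fun z => by
      have : 0 ≤ (ε / 2 * m + z) ^ 2 / ε := by positivity
      have e : (ε / 2 * m + z) ^ 2 / ε = ε / 4 * m ^ 2 + 1 / ε * z ^ 2 + m * z := by
        field_simp; ring
      linarith
    have c2 : -(ε / 2 * m ^ 2 + (1 / ε + 1 / 2) * ((x - m) ^ 2 + (y - m) ^ 2)) ≤ x * y - m ^ 2 := by
      nlinarith [c1 (x - m), c1 (y - m), sq_nonneg (x - m + (y - m))]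
    have c3 : 0 ≤ ε / 2 * m ^ 2 + (1 / ε + 1 / 2) * ((x - m) ^ 2 + (y - m) ^ 2) := by positivity
    nlinarith [mul_le_mul_of_nonneg_right c2 (sub_nonneg.2 b), mul_nonneg c3 a]
  set Z := Ex fun u => Ex fun d => Ex fun d' => g (G.nb u d) * g (G.nb u d') * (1 - Q u d d')
    with hZ
  have Z0 : 0 ≤ Z := Ex_nonneg fun u => Ex_nonneg fun d => Ex_nonneg fun d' =>
    mul_nonneg (mul_nonneg (g0 _) (g0 _)) (sub_nonneg.2 (Q1 _ _ _))
  have Z1 : m ^ 2 * (ε / 2) - (1 / ε + 1 / 2) * (2 * ρ) ≤ Z := by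
    refine le_trans ?_ (Ex_mono fun u => Ex_mono fun d => Ex_mono fun d' =>
      e5 _ _ _ (Q0 u d d') (Q1 u d d'))
    simp only [Ex_sub, Ex_add, Ex_mul_left, Ex_const, hR fun v => (g v - m) ^ 2, ← hρ]
    nlinarith [sq_nonneg m]
  have e6 : G.nrm h + Z = Ex (fun u => Ex fun d => Ex fun d' => g (G.nb u d) * g (G.nb u d')) := by
    rw [e1, hZ]
    simp only [← Ex_add]
    exact Ex_congr fun u => Ex_congr fun d => Ex_congr fun d' => by ring
  rw [e3]
  have s0 : 0 ≤ γ * ε / 6 := by positivity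
  have s1 : γ * ε / 6 ≤ 1 := by nlinarith
  have s2 := mul_le_mul_of_nonneg_left Z1 s0
  have s3 : γ * ε / 6 * (m ^ 2 * (ε / 2) - (1 / ε + 1 / 2) * (2 * ρ)) =
      γ * ε ^ 2 / 12 * m ^ 2 - γ * (1 / 3 + ε / 6) * ρ := by field_simp; ring
  have s4 : γ * ε ^ 2 / 12 * ρ + γ * (1 / 3 + ε / 6) * ρ ≤ γ * ρ := by
    have : ε ^ 2 / 12 + (1 / 3 + ε / 6) ≤ 1 := by nlinarith
    nlinarith [mul_nonneg hγ ρ0]
  nlinarith

/-- Randomised strategies of both players. -/
theorem value_le {G : Game U D V A B} {c : ℝ} (hc : 0 ≤ c) (h : G.Coll (c ^ 2))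
    {p : U → A → ℝ} {q : V → B → ℝ} (p0 : ∀ u α, 0 ≤ p u α) (p1 : ∀ u, ∑ α, p u α ≤ 1)
    (q0 : ∀ v β, 0 ≤ q v β) (q1 : ∀ v, ∑ β, q v β ≤ 1) :
    Ex (fun u => Ex fun d => ∑ β, p u (G.pj u d β) * q (G.nb u d) β) ≤ c := by
  classical
  have e : ∀ u, (Ex fun d => ∑ β, p u (G.pj u d β) * q (G.nb u d) β) =
      ∑ α, p u α * G.op q u α := by
    intro u
    simp only [op, ← Ex_mul_left, ← Ex_sum, mul_sum]
    refine Ex_congr fun d => ?_
    rw [sum_comm]
    refine sum_congr rfl fun β _ => ?_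
    rw [← sum_ind_eq (G.pj u d β) (p u), sum_mul]
    exact sum_congr rfl fun α _ => by ring
  simp only [e]
  refine (abs_le_of_sq_le_sq' ((Ex_sq_le _).trans (le_trans (Ex_mono fun u => ?_)
    (h q q0 q1))) hc).2
  refine (sum_mul_sq_le_sq_mul_sq _ _ _).trans (mul_le_of_le_one_left
    (sum_nonneg fun _ _ => sq_nonneg _) (le_trans (sum_le_sum fun α _ => ?_) (p1 u)))
  have h3 := (single_le_sum (fun α _ => p0 u α) (mem_univ α)).trans (p1 u)
  nlinarith [p0 u α]

end Game

end Pool.Agent.Shared.PCP
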