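import Pool.Agent.Shared.PCP.Dinur
import Pool.Agent.Shared.PCP.Repeat

/-!
Hardness of label cover with small soundness.
-/

noncomputable section

namespace Pool.Agent.Shared.PCP

open Finset Pool.Agent.Shared.PolyTime N487b59b3

open Classical in
/-- Retraction onto the pairs satisfying a constraint. -/
def rt (d : DD) (κ κ' : Fin 10) (β : AA × AA) : AA × AA :=
  if CC0 d κ κ' β.1 β.2 then β else (CC0_sat d κ κ').choose

theorem rt_spec (d : DD) (κ κ' : Fin 10) (β : AA × AA) :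
    CC0 d κ κ' (rt d κ κ' β).1 (rt d κ κ' β).2 := by
  unfold rt; split_ifs with h
  exacts [h, (CC0_sat d κ κ').choose_spec]

/-- The tail of the edge number `e` at `u`. -/
def tl (φ : Inst) (u : ℕ) (e : DD × Bool) : ℕ := cond e.2 u (SS φ (iD e.1) u)

/-- The projection of the edge number `e` at `u`. -/
def pjN (φ : Inst) (u : ℕ) (e : DD × Bool) (β : AA × AA) : AA :=
  cond e.2 (rt e.1 (Fin.ofNat 10 (tl φ u e)) (Fin.ofNat 10 (SS φ e.1 (tl φ u e))) β).1
    (rt e.1 (Fin.ofNat 10 (tl φ u e)) (Fin.ofNat 10 (SS φ e.1 (tl φ u e))) β).2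

/-- The edge versus endpoint game. -/
def base (φ : Inst) : Game (Fin (NN φ)) (DD × Bool) (Fin (NN φ) × DD) AA (AA × AA) where
  nb u e := (cond e.2 u (SF φ (iD e.1) u), e.1)
  pj u e := pjN φ u e

variable {φ : Inst}

theorem base_nb (u : Fin (NN φ)) (e : DD × Bool) :
    (((base φ).nb u e).1.val, ((base φ).nb u e).2) = (tl φ u e, e.1) := by
  obtain ⟨d, _ | _⟩ := e <;> rfl

theorem SS_inv' (d : DD) (v : ℕ) : SS φ d (SS φ (iD d) v) = v := by
  have := SS_inv (φ := φ) (iD d) v; rwa [iD_iD] at this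

theorem base_sum (F : Fin (NN φ) → DD × Bool → ℝ) : Ex (fun u => Ex fun e => F u e) =
    Ex fun v : Fin (NN φ) × DD => (F v.1 (v.2, true) + F (SF φ v.2 v.1) (v.2, false)) / 2 := by
  rw [Ex_comm, Ex_prod, Ex_prod' (α := Fin (NN φ))]
  refine Ex_congr fun d => ?_
  rw [Ex_div, Ex_add, Ex_bij (bij_S iD_iD SF_inv d) (fun u => F u (d, false)),
    Ex, Fintype.sum_bool]
  simp

theorem base_nb_true (v : Fin (NN φ) × DD) : (base φ).nb v.1 (v.2, true) = v := rfl
theorem base_nb_false (v : Fin (NN φ) × DD) : (base φ).nb (SF φ v.2 v.1) (v.2, false) = v :=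
  Prod.ext (SF_inv _ _) rfl

theorem base_reg : (base φ).Reg := by
  intro g
  rw [base_sum]
  simp only [base_nb_true, base_nb_false, add_self_div_two]

theorem base_spec (r : Fin (NN φ) × DD → ℝ) (hr : Ex r = 0) :
    Ex (fun u => Ex (fun e => r ((base φ).nb u e)) ^ 2) ≤ (1 - 0.002) * Ex fun v => r v ^ 2 := by
  set s : Fin (NN φ) → ℝ := fun u => Ex fun e => r ((base φ).nb u e) with hs
  have h0 : Ex s = 0 := (base_reg r).trans hr
  have hS := bij_S iD_iD (SF_inv (φ := φ))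
  set X := Ex fun u => s u ^ 2 with hX
  set Y := Ex fun v => r v ^ 2 with hY
  have X0 : 0 ≤ X := Ex_nonneg fun _ => sq_nonneg _
  have Y0 : 0 ≤ Y := Ex_nonneg fun _ => sq_nonneg _
  have e1 : X = Ex fun v : Fin (NN φ) × DD => r v * ((s v.1 + s (SF φ v.2 v.1)) / 2) := by
    have : X = Ex fun u => Ex fun e => s u * r ((base φ).nb u e) :=
      Ex_congr fun u => by rw [Ex_mul_left, sq]
    rw [this, base_sum]
    simp only [base_nb_true, base_nb_false]
    exact Ex_congr fun v => by ring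
  have e2 : Ex (fun v : Fin (NN φ) × DD => ((s v.1 + s (SF φ v.2 v.1)) / 2) ^ 2) =
      (X + Ex fun u => s u * Aop (SF φ) s u) / 2 := by
    have a1 : Ex (fun v : Fin (NN φ) × DD => s v.1 ^ 2) = X := Ex_fst (fun u => s u ^ 2)
    have a2 : Ex (fun v : Fin (NN φ) × DD => s (SF φ v.2 v.1) ^ 2) = X := by
      rw [Ex_prod']; simp only [Ex_bij (hS _) (fun u => s u ^ 2), Ex_const, hX]
    have a3 : Ex (fun v : Fin (NN φ) × DD => s v.1 * s (SF φ v.2 v.1)) =
        Ex fun u => s u * Aop (SF φ) s u := by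
      rw [Ex_prod]; simp only [Ex_mul_left]; rfl
    rw [← a3]
    have : ∀ a b : ℝ, ((a + b) / 2) ^ 2 = (a ^ 2 + b ^ 2 + 2 * (a * b)) / 4 := fun a b => by ring
    simp only [this, Ex_div, Ex_add, Ex_mul_left, a1, a2]; ring
  have h1 := Ex_cs s (Aop (SF φ) s)
  have h2 := spec_SF φ s h0
  have h3 : Ex (fun u => s u * Aop (SF φ) s u) ≤ 0.996 * X :=
    (abs_le_of_sq_le_sq' (h1.trans ((mul_le_mul_of_nonneg_left h2 X0).trans_eq (by ring)))
      (by positivity)).2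
  have h4 := Ex_cs r (fun v : Fin (NN φ) × DD => (s v.1 + s (SF φ v.2 v.1)) / 2)
  rw [← e1, e2] at h4
  rcases X0.eq_or_lt with h | h
  · rw [← h]; positivity
  · refine le_of_mul_le_mul_left ?_ h
    nlinarith [mul_le_mul_of_nonneg_left h3 Y0]

theorem base_coll {δ : ℝ} (h : ∀ σ : Fin (NN φ) → AA, δ ≤
    pr fun z : Fin (NN φ) × DD => ¬ CC φ z.1 z.2 (σ z.1) (σ (SF φ z.2 z.1))) :
    (base φ).Coll (1 - δ / 2) := by
  intro q q0 q1
  choose τ hτ using fun u => exists_max_image univ ((base φ).op q u) univ_nonempty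
  have h1 : (base φ).nrm q ≤ Ex fun u => (base φ).op q u (τ u) := by
    refine Ex_mono fun u => ?_
    have a : ∑ α, (base φ).op q u α ≤ 1 :=
      ((base φ).sum_op q u).trans_le (Ex_le_const zero_le_one fun _ => q1 _)
    calc _ ≤ ∑ α, (base φ).op q u α * (base φ).op q u (τ u) := sum_le_sum fun α _ => by
          rw [sq]
          exact mul_le_mul_of_nonneg_left ((hτ u).2 α (mem_univ _)) ((base φ).op_nonneg q0 _ _)
      _ ≤ _ := by rw [← sum_mul]; exact mul_le_of_le_one_left ((base φ).op_nonneg q0 _ _) a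
  refine h1.trans ?_
  unfold Game.op
  rw [base_sum]
  simp only [base_nb_true, base_nb_false]
  have h2 : Ex (fun z : Fin (NN φ) × DD =>
      1 - ind (¬ CC φ z.1 z.2 (τ z.1) (τ (SF φ z.2 z.1))) / 2) ≤ 1 - δ / 2 := by
    rw [Ex_sub, Ex_const, Ex_div]
    have := h τ
    unfold pr at this
    linarith
  refine le_trans (Ex_mono fun v => ?_) h2
  rw [← sum_add_distrib, sum_div]
  have h3 : 0 ≤ 1 - ind (¬ CC φ v.1 v.2 (τ v.1) (τ (SF φ v.2 v.1))) / 2 := by
    linarith [ind_le_one (¬ CC φ v.1 v.2 (τ v.1) (τ (SF φ v.2 v.1)))]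
  refine le_trans (sum_le_sum fun β _ => ?_) ((mul_sum _ _ _).symm.trans_le
    (mul_le_of_le_one_right h3 (q1 v)))
  rw [← add_mul, mul_div_right_comm]
  refine mul_le_mul_of_nonneg_right ?_ (q0 _ _)
  have h4 := ind_union (p := True) (q := ¬ (base φ).pj v.1 (v.2, true) β = τ v.1 ∨
      ¬ (base φ).pj (SF φ v.2 v.1) (v.2, false) β = τ (SF φ v.2 v.1))
      (r := ¬¬ CC φ v.1 v.2 (τ v.1) (τ (SF φ v.2 v.1))) fun _ => by
    by_contra h5
    push Not at h5
    obtain ⟨⟨a, b⟩, c⟩ := h5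
    refine c ?_
    rw [← a, ← b]
    have e : tl φ (SF φ v.2 v.1) (v.2, false) = v.1 := SS_inv _ _
    simp only [base, pjN, e, cond_true, cond_false]
    exact rt_spec _ _ _ _
  have h5 := ind_union (p := ¬ (base φ).pj v.1 (v.2, true) β = τ v.1 ∨
      ¬ (base φ).pj (SF φ v.2 v.1) (v.2, false) β = τ (SF φ v.2 v.1)) id
  rw [ind_pos trivial, ind_not (¬ _)] at h4
  rw [ind_not, ind_not] at h5
  linarith [ind_le_one ((base φ).pj v.1 (v.2, true) β = τ v.1),
    ind_le_one ((base φ).pj (SF φ v.2 v.1) (v.2, false) β = τ (SF φ v.2 v.1)),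
    ind_le_one (¬ CC φ v.1 v.2 (τ v.1) (τ (SF φ v.2 v.1)))]

theorem base_complete (h : ISat φ) : ∃ (a : Fin (NN φ) → AA) (b : Fin (NN φ) × DD → AA × AA),
    ∀ u e, (base φ).pj u e (b ((base φ).nb u e)) = a u := by
  obtain ⟨σ, hσ⟩ := reg_complete h
  refine ⟨fun u => σ u, fun v => (σ v.1, σ (SS φ v.2 v.1)), fun u e => ?_⟩
  have e1 := base_nb u e
  simp only [Prod.mk.injEq] at e1
  simp only [e1.1, e1.2]
  have := hσ (tl φ u e) e.1
  simp only [base, pjN, rt, CC] at this ⊢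
  rw [if_pos this]
  obtain ⟨d, _ | _⟩ := e
  · exact congrArg σ (SS_inv' d u)
  · rfl

/-- **Label cover** with perfect completeness and small soundness. -/
theorem label_cover {δ : ℝ} (hδ : 0 < δ) : ∃ k, ∀ L ∈ N68a2faeb.NP, ∃ f : List Bool → Inst,
    PT f ∧ ∀ x, (L x = true → ISat (f x)) ∧ (¬ L x = true → ((base (f x)).rep k).Coll (δ ^ 2)) := by
  obtain ⟨ε, hε, h⟩ := pcp
  set η := min (ε / 17280 / 2) 1 with hη
  have η0 : 0 < η := by positivity
  have η1 : η ≤ 1 := min_le_right _ _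
  have l0 : 0 ≤ 1 - 0.002 * η ^ 2 / 12 := by nlinarith
  obtain ⟨k, hk⟩ := exists_pow_lt_of_lt_one (pow_pos hδ 2)
    (show 1 - 0.002 * η ^ 2 / 12 < 1 by have := pow_pos η0 2; linarith)
  refine ⟨k, fun L hL => ?_⟩
  obtain ⟨f, hf, h⟩ := h L hL
  refine ⟨f, hf, fun x => ⟨(h x).2.1, fun hx q q0 q1 => le_trans ?_ hk.le⟩⟩
  refine Game.coll_rep l0 (Game.lam_of_coll base_reg (by norm_num) η0 η1 (by norm_num) base_spec
    fun q q0 q1 => (base_coll (reg_sound (h x).1 ((h x).2.2 hx)) q q0 q1).trans ?_) k q q0 q1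
  have := min_le_left (ε / 17280 / 2) 1
  linarith

section
variable {α : Type} [N487b59b3 α]

theorem tl_pt {φ : α → Inst} {u : α → ℕ} (e : DD × Bool) (hφ : PT φ) (hu : PT u) :
    PT (fun a => tl (φ a) (u a) e) := by
  obtain ⟨d, _ | _⟩ := e
  exacts [SS_pt _ hφ hu, hu]

theorem pjN_pt {φ : α → Inst} {u : α → ℕ} (e : DD × Bool) (hφ : PT φ) (hu : PT u) :
    PT (fun a => pjN (φ a) (u a) e) :=
  PT.ofFinite (fun (z : Fin 10 × Fin 10) (β : AA × AA) =>
    cond e.2 (rt e.1 z.1 z.2 β).1 (rt e.1 z.1 z.2 β).2)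
    ((PT.ofNat10 (tl_pt e hφ hu)).pair (PT.ofNat10 (SS_pt _ hφ (tl_pt e hφ hu))))

end

end Pool.Agent.Shared.PCP
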