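import Pool.Agent.Shared.PCP.Walk

/-!
Gap amplification by graph powering.
-/

set_option linter.unusedSectionVars false

noncomputable section

namespace Pool.Agent.Shared.PCP

open Finset

/-- The constraint of the powered graph on the walk `L` stopped after `ℓ` steps; `cs p` is the
constraint of the `p`-th step, `x` and `y` are the opinions of the two ends of the walk. -/
def pc {D A : Type} (ι : D → D) (R : ℕ) (cs : ℕ → A → A → Prop) (L : List D) (ℓ : ℕ)
    (x y : List D → A) : Prop :=
  ∀ p q, p < R → q < R → p + 1 + q = ℓ → cs p (x (L.take p)) (y (rev ι ((L.drop (p + 1)).take q)))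

variable {V D A : Type} [Fintype V] [Fintype D] [Fintype A] [Inhabited D] [Nonempty V]
  {S : D → V → V} {ι : D → D}

omit [Fintype D] [Fintype V] [Nonempty V] in
theorem split_facts (l : List D) (i : D) (m r : List D) :
    (l ++ i :: (m ++ r)).take l.length = l ∧ (l ++ i :: (m ++ r)).getD l.length default = i ∧
    ((l ++ i :: (m ++ r)).drop (l.length + 1)).take m.length = m ∧
    (l ++ i :: (m ++ r)).take (l.length + 1 + m.length) = l ++ i :: m := by
  refine ⟨by simp, by simp, by simp, ?_⟩
  rw [add_assoc, List.take_length_add_append, add_comm 1, List.take_succ_cons]; simp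

omit [Fintype V] [Nonempty V] in
theorem Ew_split (p q r : ℕ) (g : List D → ℝ) : Ew (p + 1 + q + r) g =
    Ew p fun l => Ex fun i => Ew q fun m => Ew r fun s => g (l ++ i :: (m ++ s)) := by
  rw [show p + 1 + q + r = p + (q + r + 1) by omega, Ew_append]
  refine Ew_congr fun l _ => ?_
  rw [Ew_succ]; simp only [Ew_append]

/-- Two steps of a random walk are both bad with small probability. -/
theorem two_steps (hι : ∀ i, ι (ι i) = i) (h : ∀ i v, S (ι i) (S i v) = v) {lam : ℝ}
    (hl : 0 ≤ lam) (hs : Spec S lam) (F : V → D → Prop) (p q r : ℕ) :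
    Ex (fun a => Ew (p + 1 + q + (r + 1)) fun L =>
      ind (F (walk S a (L.take p)) (L.getD p default)) *
        ind (F (walk S a (L.take (p + 1 + q))) (L.getD (p + 1 + q) default))) ≤
      pr (fun z : V × D => F z.1 z.2) ^ 2 + lam ^ q * pr (fun z : V × D => F z.1 z.2) := by
  have hS := bij_S hι h
  let φ : V → ℝ := fun v => Ex fun i => ind (F v i)
  let ψ : V → ℝ := fun v => Ex fun i => ind (F (S (ι i) v) i)
  have e1 : ∀ a, (Ew (p + 1 + q + (r + 1)) fun L =>
      ind (F (walk S a (L.take p)) (L.getD p default)) *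
        ind (F (walk S a (L.take (p + 1 + q))) (L.getD (p + 1 + q) default))) =
      Ew p fun l => Ex fun i => ind (F (walk S a l) i) * (Aop S)^[q] φ (S i (walk S a l)) := by
    intro a
    rw [Ew_split]
    refine Ew_congr fun l hl => Ex_congr fun i => ?_
    rw [← Ew_walk, ← Ew_mul_left]
    refine Ew_congr fun m hm => ?_
    rw [Ew_succ, ← Ex_mul_left]
    refine Ex_congr fun j => ?_
    refine (Ew_congr fun s _ => ?_).trans (Ew_const r _)
    obtain ⟨a1, a2, -, a4⟩ := split_facts l i m (j :: s)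
    obtain ⟨-, a5, -, -⟩ := split_facts (l ++ i :: m) j [] s
    subst hl hm
    have a6 : (l ++ i :: (m ++ j :: s)).getD (l.length + 1 + m.length) default = j := by
      rw [show l.length + 1 + m.length = (l ++ i :: m).length by simp; omega,
        show l ++ i :: (m ++ j :: s) = l ++ i :: m ++ j :: ([] ++ s) by simp]
      exact a5
    rw [a1, a2, a4, a6, walk_append, walk_cons]
  simp only [e1]
  rw [Ew_comm]
  have e2 : ∀ l : List D, Ex (fun a => Ex fun i => ind (F (walk S a l) i) *
      (Aop S)^[q] φ (S i (walk S a l))) = Ex fun v => ψ v * (Aop S)^[q] φ v := by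
    intro l
    rw [Ex_bij (bij_walk hι h l) (fun u => Ex fun i => ind (F u i) * (Aop S)^[q] φ (S i u)),
      Ex_comm]
    have e3 : ∀ v, ψ v * (Aop S)^[q] φ v =
        Ex fun i => ind (F (S (ι i) v) i) * (Aop S)^[q] φ v := fun v => (Ex_mul_right _ _).symm
    rw [Ex_congr e3, Ex_comm (fun v i => ind (F (S (ι i) v) i) * (Aop S)^[q] φ v)]
    refine Ex_congr fun i => ?_
    rw [← Ex_bij (hS i) (fun v => ind (F (S (ι i) v) i) * (Aop S)^[q] φ v)]
    simp only [h]
  simp only [e2, Ew_const]
  have m1 : Ex φ = pr (fun z : V × D => F z.1 z.2) :=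
    (Ex_prod (fun z : V × D => ind (F z.1 z.2))).symm
  have m2 : Ex ψ = pr (fun z : V × D => F z.1 z.2) := by
    refine (Ex_comm (fun v i => ind (F (S (ι i) v) i))).trans ?_
    refine Eq.trans ?_ (Ex_prod' (fun z : V × D => ind (F z.1 z.2))).symm
    refine Ex_congr fun i => ?_
    rw [← Ex_bij (hS i) (fun v => ind (F (S (ι i) v) i))]
    simp only [h]
  exact mixing (f := φ) (g := ψ) hS hl hs q (fun v => Ex_nonneg fun _ => ind_nonneg _)
    (fun v => Ex_le_const zero_le_one fun _ => ind_le_one _)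
    (fun v => Ex_nonneg fun _ => ind_nonneg _)
    (fun v => Ex_le_const zero_le_one fun _ => ind_le_one _) m1 m2

theorem one_step (hι : ∀ i, ι (ι i) = i) (h : ∀ i v, S (ι i) (S i v) = v) (F : V → D → Prop)
    (p r : ℕ) : Ex (fun a => Ew (p + 1 + 0 + r) fun L =>
      ind (F (walk S a (L.take p)) (L.getD p default))) = pr (fun z : V × D => F z.1 z.2) := by
  have e1 : ∀ a, (Ew (p + 1 + 0 + r) fun L => ind (F (walk S a (L.take p)) (L.getD p default))) =
      Ew p fun l => Ex fun i => ind (F (walk S a l) i) := by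
    intro a
    rw [Ew_split]
    refine Ew_congr fun l hl => Ex_congr fun i => ?_
    rw [Ew_zero]
    refine (Ew_congr fun s _ => ?_).trans (Ew_const r _)
    obtain ⟨a1, a2, -, -⟩ := split_facts l i [] s
    subst hl
    rw [a1, a2]
  simp only [e1]
  rw [Ew_comm, pr, Ex_prod]
  refine (Ew_congr fun l _ => ?_).trans (Ew_const p _)
  exact Ex_bij (bij_walk hι h l) (fun u => Ex fun i => ind (F u i))

theorem second_moment (hι : ∀ i, ι (ι i) = i) (h : ∀ i v, S (ι i) (S i v) = v) {lam : ℝ}
    (hl : 0 < lam) (hl1 : lam < 1) (hs : Spec S lam) (F : V → D → Prop) (R : ℕ) :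
    Ex (fun a => Ew (2 * R) fun L =>
      (∑ p ∈ range R, ind (F (walk S a (L.take p)) (L.getD p default))) ^ 2) ≤
      R * pr (fun z : V × D => F z.1 z.2) *
        (R * pr (fun z : V × D => F z.1 z.2) + 2 / (lam * (1 - lam))) := by
  set δ := pr (fun z : V × D => F z.1 z.2)
  have hδ : 0 ≤ δ := pr_nonneg _
  have key : ∀ p < R, ∀ q < R, Ex (fun a => Ew (2 * R) fun L =>
      ind (F (walk S a (L.take p)) (L.getD p default)) *
        ind (F (walk S a (L.take q)) (L.getD q default))) ≤
      δ ^ 2 + lam ^ Nat.dist p q / lam * δ := by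
    have k1 : ∀ p q, p < q → q < R → Ex (fun a => Ew (2 * R) fun L =>
        ind (F (walk S a (L.take p)) (L.getD p default)) *
          ind (F (walk S a (L.take q)) (L.getD q default))) ≤
        δ ^ 2 + lam ^ (q - p) / lam * δ := by
      intro p q hpq hq
      obtain ⟨c, rfl⟩ : ∃ c, q = p + 1 + c := ⟨q - p - 1, by omega⟩
      have := two_steps hι h hl.le hs F p c (2 * R - (p + 1 + c) - 1)
      rw [show p + 1 + c + (2 * R - (p + 1 + c) - 1 + 1) = 2 * R by omega] at this
      rw [show p + 1 + c - p = c + 1 by omega, pow_succ lam, mul_div_cancel_right₀ _ hl.ne']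
      exact this
    intro p hp q hq
    rcases lt_trichotomy p q with hpq | rfl | hpq
    · rw [Nat.dist_eq_sub_of_le hpq.le]; exact k1 p q hpq hq
    · have := one_step hι h F p (2 * R - (p + 1))
      rw [show p + 1 + 0 + (2 * R - (p + 1)) = 2 * R by omega] at this
      simp only [← sq, ind_sq, this, Nat.dist_self, pow_zero]
      have h1 : 1 ≤ 1 / lam := by rw [le_div_iff₀ hl]; linarith
      nlinarith [sq_nonneg δ]
    · rw [Nat.dist_comm, Nat.dist_eq_sub_of_le hpq.le]
      simp only [mul_comm (ind (F (walk S _ (List.take p _)) _))]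
      exact k1 q p hpq hp
  simp only [sq (∑ p ∈ range R, _), sum_mul_sum, Ew_sum, Ex_sum]
  calc _ ≤ ∑ p ∈ range R, ∑ q ∈ range R, (δ ^ 2 + lam ^ Nat.dist p q / lam * δ) :=
        sum_le_sum fun p hp => sum_le_sum fun q hq => key p (mem_range.1 hp) q (mem_range.1 hq)
    _ ≤ ∑ _p ∈ range R, (R * δ ^ 2 + 2 / (1 - lam) / lam * δ) := by
        refine sum_le_sum fun p _ => ?_
        rw [sum_add_distrib, ← sum_mul, ← sum_div, sum_const, card_range, nsmul_eq_mul]
        gcongr
        exact sum_pow_dist hl.le hl1 p R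
    _ = _ := by
        rw [sum_const, card_range, nsmul_eq_mul, div_div, mul_comm (1 - lam)]; ring

omit [Nonempty V] in
theorem good_step (hι : ∀ i, ι (ι i) = i) (h : ∀ i v, S (ι i) (S i v) = v) (F : V → D → Prop)
    (σ : V → List D → A) (τ : V → A) (p q r : ℕ) :
    Ex (fun a => Ew (p + 1 + q + r) fun L =>
      ind (F (walk S a (L.take p)) (L.getD p default) ∧ σ a (L.take p) = τ (walk S a (L.take p)) ∧
        σ (walk S a (L.take (p + 1 + q))) (rev ι ((L.drop (p + 1)).take q)) =
          τ (S (L.getD p default) (walk S a (L.take p))))) =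
    Ex fun u => Ex fun i => ind (F u i) *
      (Ew p (fun l => ind (σ (walk S u l) (rev ι l) = τ u)) *
        Ew q (fun l => ind (σ (walk S (S i u) l) (rev ι l) = τ (S i u)))) := by
  have e1 : ∀ a, (Ew (p + 1 + q + r) fun L =>
      ind (F (walk S a (L.take p)) (L.getD p default) ∧ σ a (L.take p) = τ (walk S a (L.take p)) ∧
        σ (walk S a (L.take (p + 1 + q))) (rev ι ((L.drop (p + 1)).take q)) =
          τ (S (L.getD p default) (walk S a (L.take p))))) =
      Ew p fun l => Ex fun i => ind (F (walk S a l) i) * (ind (σ a l = τ (walk S a l)) *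
        Ew q (fun m => ind (σ (walk S (S i (walk S a l)) m) (rev ι m) = τ (S i (walk S a l))))) := by
    intro a
    rw [Ew_split]
    refine Ew_congr fun l hl => Ex_congr fun i => ?_
    rw [← Ew_mul_left, ← Ew_mul_left]
    refine Ew_congr fun m hm => ?_
    refine (Ew_congr fun s _ => ?_).trans (Ew_const r _)
    obtain ⟨a1, a2, a3, a4⟩ := split_facts l i m s
    subst hl hm
    rw [a1, a2, a3, a4, walk_append, walk_cons, ind_and, ind_and]
  simp only [e1]
  rw [Ew_comm, ← Ew_rev hι]
  have e2 : ∀ l : List D, Ex (fun a => Ex fun i => ind (F (walk S a (rev ι l)) i) *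
      (ind (σ a (rev ι l) = τ (walk S a (rev ι l))) *
        Ew q (fun m => ind (σ (walk S (S i (walk S a (rev ι l))) m) (rev ι m) =
          τ (S i (walk S a (rev ι l))))))) =
      Ex fun u => Ex fun i => ind (F u i) * (ind (σ (walk S u l) (rev ι l) = τ u) *
        Ew q (fun m => ind (σ (walk S (S i u) m) (rev ι m) = τ (S i u)))) := by
    intro l
    rw [← Ex_bij (bij_walk hι h l)]
    simp only [walk_rev h]
  simp only [e2]
  rw [← Ew_comm]
  refine Ex_congr fun u => ?_
  rw [← Ew_comm]
  refine Ex_congr fun i => ?_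
  rw [Ew_mul_left, Ew_mul_right]

omit [Fintype V] [Nonempty V] in
theorem exists_popular [Nonempty A] (R : ℕ) (g : List D → A) :
    ∃ s : A, (R : ℝ) / Fintype.card A ≤ ∑ p ∈ range R, Ew p (fun l => ind (g l = s)) := by
  obtain ⟨s, hs⟩ := exists_Ex_le (fun s : A => ∑ p ∈ range R, Ew p (fun l => ind (g l = s)))
  refine ⟨s, le_of_eq_of_le ?_ hs⟩
  unfold Ex
  rw [sum_comm]
  simp only [← Ew_sum, sum_ind_eq_one, Ew_const, sum_const, card_range, nsmul_eq_mul, mul_one]

/-- **Powering.** -/
theorem power [Nonempty A] (hι : ∀ i, ι (ι i) = i) (h : ∀ i v, S (ι i) (S i v) = v) {lam : ℝ}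
    (hl : 0 < lam) (hl1 : lam < 1) (hs : Spec S lam) (C : V → D → A → A → Prop) {R : ℕ}
    (hR : 0 < R) {δ : ℝ} (hδ : 0 < δ)
    (hC : ∀ τ : V → A, δ ≤ pr fun z : V × D => ¬ C z.1 z.2 (τ z.1) (τ (S z.2 z.1)))
    (σ : V → List D → A) :
    R * δ / (4 * (Fintype.card A : ℝ) ^ 4 * (R * δ + 2 / (lam * (1 - lam)))) ≤
      pr fun z : V × (Fin (2 * R) → D) × Fin (2 * R) => ¬ pc ι R
        (fun p => C (walk S z.1 ((List.ofFn z.2.1).take p)) ((List.ofFn z.2.1).getD p default))
        (List.ofFn z.2.1) z.2.2 (σ z.1) (σ (walk S z.1 ((List.ofFn z.2.1).take z.2.2))) := by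
  have : Nonempty (Fin (2 * R)) := ⟨⟨0, by omega⟩⟩
  choose τ hτ using fun u => exists_popular R (fun l => σ (walk S u l) (rev ι l))
  let F : V → D → Prop := fun u i => ¬ C u i (τ u) (τ (S i u))
  have h2 := second_moment hι h hl hl1 hs F R
  have hδ0 := hC τ
  change δ ≤ pr (fun z : V × D => F z.1 z.2) at hδ0
  set δ0 := pr (fun z : V × D => F z.1 z.2) with hδ0def
  let G : ℕ → ℕ → V → List D → Prop := fun p q a L =>
    F (walk S a (L.take p)) (L.getD p default) ∧ σ a (L.take p) = τ (walk S a (L.take p)) ∧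
        σ (walk S a (L.take (p + 1 + q))) (rev ι ((L.drop (p + 1)).take q)) =
          τ (S (L.getD p default) (walk S a (L.take p)))
  let N : V × (Fin (2 * R) → D) × Fin (2 * R) → ℝ := fun z =>
    ∑ p ∈ range R, ∑ q ∈ range R, ind (p + 1 + q = z.2.2) * ind (G p q z.1 (List.ofFn z.2.1))
  set B : ℝ := 2 / (lam * (1 - lam))
  have hB : 0 < B := by have : 0 < 1 - lam := by linarith
                        positivity
  have hA := card_pos_real (α := A)
  have hR' : (0 : ℝ) < R := by exact_mod_cast hR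
  have hN2 : Ex (fun z => N z ^ 2) ≤ R * δ0 * (R * δ0 + B) := by
    refine le_trans ?_ h2
    rw [Ex_prod]
    refine Ex_mono fun a => ?_
    rw [Ex_prod]
    refine Ex_mono fun w => Ex_le_const (sq_nonneg _) fun ℓ => ?_
    refine pow_le_pow_left₀ (sum_nonneg fun _ _ => sum_nonneg fun _ _ =>
      mul_nonneg (ind_nonneg _) (ind_nonneg _)) (sum_le_sum fun p _ => ?_) 2
    calc _ ≤ ∑ q ∈ range R, ind (ℓ - (p + 1) = q) * ind (F (walk S a ((List.ofFn w).take p))
          ((List.ofFn w).getD p default)) :=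
          sum_le_sum fun q _ => mul_le_mul (ind_mono (by simp only; omega)) (ind_mono fun h => h.1)
            (ind_nonneg _) (ind_nonneg _)
      _ ≤ _ := by
          rw [← sum_mul]
          refine mul_le_of_le_one_left (ind_nonneg _) ?_
          simp only [ind_eq_ite, sum_ite_eq]
          split_ifs <;> norm_num
  have hN1 : R * δ0 / (2 * (Fintype.card A : ℝ) ^ 2) ≤ Ex N := by
    have e : Ex N = ∑ p ∈ range R, ∑ q ∈ range R, (1 / (2 * R)) *
        Ex (fun a => Ew (2 * R) fun L => ind (G p q a L)) := by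
      simp only [N, Ex_sum]
      refine sum_congr rfl fun p hp => sum_congr rfl fun q hq => ?_
      rw [Ex_prod, ← Ex_mul_left]
      refine Ex_congr fun a => ?_
      rw [Ex_prod']
      simp only [Ex_mul_left, Ex_mul_right]
      congr 1
      have hpq : p + 1 + q < 2 * R := by have := mem_range.1 hp; have := mem_range.1 hq; omega
      have : ∀ ℓ : Fin (2 * R), ind (p + 1 + q = ℓ) = ind ((⟨_, hpq⟩ : Fin (2 * R)) = ℓ) :=
        fun ℓ => ind_congr (by simp [Fin.ext_iff])
      simp only [this, Ex, sum_ind_eq_one, Fintype.card_fin, Nat.cast_mul, Nat.cast_ofNat]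
    have e2 : ∀ p ∈ range R, ∀ q ∈ range R, Ex (fun a => Ew (2 * R) fun L => ind (G p q a L)) =
        Ex fun u => Ex fun i => ind (F u i) *
          (Ew p (fun l => ind (σ (walk S u l) (rev ι l) = τ u)) *
            Ew q (fun l => ind (σ (walk S (S i u) l) (rev ι l) = τ (S i u)))) := by
      intro p hp q hq
      have := good_step hι h F σ τ p q (2 * R - (p + 1 + q))
      rwa [show p + 1 + q + (2 * R - (p + 1 + q)) = 2 * R by
        have := mem_range.1 hp; have := mem_range.1 hq; omega] at this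
    rw [e, sum_congr rfl fun p hp => sum_congr rfl fun q hq => by rw [e2 p hp q hq]]
    simp only [← mul_sum, ← Ex_sum, ← sum_mul]
    have e3 : δ0 * ((R / Fintype.card A) * (R / Fintype.card A)) ≤ Ex fun u => Ex fun i =>
        ind (F u i) * ((∑ p ∈ range R, Ew p (fun l => ind (σ (walk S u l) (rev ι l) = τ u))) *
          ∑ q ∈ range R, Ew q (fun l => ind (σ (walk S (S i u) l) (rev ι l) = τ (S i u)))) := by
      rw [hδ0def, pr, Ex_prod]
      simp only [← Ex_mul_right]
      refine Ex_mono fun u => Ex_mono fun i => mul_le_mul_of_nonneg_left ?_ (ind_nonneg _)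
      exact mul_le_mul (hτ u) (hτ _) (by positivity) (le_trans (by positivity) (hτ u))
    refine le_trans (le_of_eq ?_) (mul_le_mul_of_nonneg_left e3 (by positivity))
    field_simp
  set P := pr fun z : V × (Fin (2 * R) → D) × Fin (2 * R) => ¬ pc ι R
        (fun p => C (walk S z.1 ((List.ofFn z.2.1).take p)) ((List.ofFn z.2.1).getD p default))
        (List.ofFn z.2.1) z.2.2 (σ z.1) (σ (walk S z.1 ((List.ofFn z.2.1).take z.2.2))) with hP
  have hcs : Ex N ^ 2 ≤ P * Ex (fun z => N z ^ 2) := by
    have := Ex_cs (fun z : V × (Fin (2 * R) → D) × Fin (2 * R) => ind (¬ pc ι R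
        (fun p => C (walk S z.1 ((List.ofFn z.2.1).take p)) ((List.ofFn z.2.1).getD p default))
        (List.ofFn z.2.1) z.2.2 (σ z.1) (σ (walk S z.1 ((List.ofFn z.2.1).take z.2.2))))) N
    simp only [ind_sq] at this
    refine le_of_eq_of_le ?_ this
    congr 1
    refine Ex_congr fun z => ?_
    by_cases hz : pc ι R
        (fun p => C (walk S z.1 ((List.ofFn z.2.1).take p)) ((List.ofFn z.2.1).getD p default))
        (List.ofFn z.2.1) z.2.2 (σ z.1) (σ (walk S z.1 ((List.ofFn z.2.1).take z.2.2)))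
    · rw [ind_neg (not_not.2 hz), zero_mul]
      refine sum_eq_zero fun p hp => sum_eq_zero fun q hq => ?_
      rw [← ind_and]
      refine ind_neg fun ⟨h1, h2, h3, h4⟩ => h2 ?_
      have := hz p q (mem_range.1 hp) (mem_range.1 hq) h1
      rw [← h1, h3, h4] at this
      exact this
    · rw [ind_pos hz, one_mul]
  have hP0 : 0 ≤ P := pr_nonneg _
  have hδ1 : 0 < δ0 := hδ.trans_le hδ0
  have h3 : (R * δ0 / (2 * (Fintype.card A : ℝ) ^ 2)) ^ 2 ≤ P * (R * δ0 * (R * δ0 + B)) :=
    (pow_le_pow_left₀ (by positivity) hN1 2).trans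
      (hcs.trans (mul_le_mul_of_nonneg_left hN2 hP0))
  have h4 : R * δ0 ≤ P * (4 * (Fintype.card A : ℝ) ^ 4 * (R * δ0 + B)) := by
    rw [div_pow, div_le_iff₀ (by positivity)] at h3
    refine le_of_mul_le_mul_left ?_ (mul_pos hR' hδ1)
    nlinarith
  rw [div_le_iff₀ (by positivity)]
  have h5 : R * δ ≤ R * δ0 := mul_le_mul_of_nonneg_left hδ0 hR'.le
  set c := P * (4 * (Fintype.card A : ℝ) ^ 4)
  have hc : 0 ≤ c := by positivity
  have h6 : R * δ0 ≤ c * (R * δ0 + B) := by simpa only [c, mul_assoc] using h4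
  have h7 : R * δ ≤ c * (R * δ + B) := by
    by_cases h8 : 1 ≤ c
    · nlinarith [mul_pos hR' hδ]
    · nlinarith
  simpa only [c, mul_assoc] using h7

end Pool.Agent.Shared.PCP
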