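import Pool.Agent.Shared.PCP.Reg
import Pool.Agent.Shared.PCP.Power
import Pool.Agent.Shared.PCP.PTFin

/-!
One round of gap amplification.
-/

noncomputable section

namespace Pool.Agent.Shared.PCP

open Finset Pool.Agent.Shared.PolyTime N487b59b3

/-- Short words. -/
def WW (R : ℕ) : Type := {l : List DD // l.length < R}

instance (R : ℕ) : Finite (WW R) := (List.finite_length_lt DD R).to_subtype
instance (R : ℕ) : Fintype (WW R) := Fintype.ofFinite _
instance (R : ℕ) : DecidableEq (WW R) := Classical.decEq _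

/-- The alphabet of the powered graph. -/
def YY (R : ℕ) : Type := WW R → AA

instance (R : ℕ) : Fintype (YY R) := inferInstanceAs (Fintype (WW R → AA))
instance (R : ℕ) : DecidableEq (YY R) := Classical.decEq _
instance (R : ℕ) : Nonempty (YY R) := ⟨fun _ => 0⟩

/-- The opinion along a word. -/
def op {R : ℕ} (x : YY R) (l : List DD) : AA := if h : l.length < R then x ⟨l, h⟩ else 0

/-- The edges at a vertex of the powered graph. -/
abbrev EE (R : ℕ) := (Fin (2 * R) → DD) × Fin (2 * R)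

/-- The indices of the new variables at a vertex. -/
def ZZ (R : ℕ) : Type := (YY R → ZMod 2) ⊕ (EE R × (YY R × YY R → ZMod 2))

instance (R : ℕ) : Fintype (ZZ R) :=
  inferInstanceAs (Fintype ((YY R → ZMod 2) ⊕ (EE R × (YY R × YY R → ZMod 2))))

/-- The name of a new variable. -/
def nm {R : ℕ} (a : ℕ) (z : ZZ R) : ℕ := a * Fintype.card (ZZ R) + Fintype.equivFin (ZZ R) z

open Classical in
/-- The constraint of an edge of the powered graph, from the positions along the walk. -/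
def cfin {R : ℕ} (e : EE R) (ps : Fin R → Fin 10 × Fin 10) (z : YY R × YY R) : ZMod 2 :=
  if pc iD R (fun p x y => ∀ h : p < R, CC0 ((List.ofFn e.1).getD p default) (ps ⟨p, h⟩).1
    (ps ⟨p, h⟩).2 x y) (List.ofFn e.1) e.2 (op z.1) (op z.2) then 1 else 0

/-- The positions along the walk. -/
def pos {R : ℕ} (φ : Inst) (a : ℕ) (e : EE R) (p : Fin R) : Fin 10 × Fin 10 :=
  (Fin.ofNat 10 (walk (SS φ) a ((List.ofFn e.1).take p)),
    Fin.ofNat 10 (SS φ ((List.ofFn e.1).getD p default) (walk (SS φ) a ((List.ofFn e.1).take p))))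

/-- The name of a queried variable. -/
def qnm {R : ℕ} (a b : ℕ) (e : EE R) (s : (YY R × YY R → ZMod 2) ⊕ (Bool × (YY R → ZMod 2))) : ℕ :=
  Sum.elim (fun f => nm a (.inr (e, f) : ZZ R)) (fun t => nm (cond t.1 a b) (.inl t.2 : ZZ R)) s

/-- A constraint of the new instance. -/
def mkc {R : ℕ} (φ : Inst) (a : ℕ) (ω : EE R × QS (YY R)) (κ : Fin 10) : ℕ :=
  qnm a (walk (SS φ) a ((List.ofFn ω.1.1).take ω.1.2)) ω.1 (qidx (cfin ω.1 (pos φ a ω.1)) ω.2 κ)

/-- One round of amplification. -/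
def amp (R : ℕ) (φ : Inst) : Inst :=
  (List.range (NN φ)).flatMap fun a => (univ : Finset (EE R × QS (YY R))).toList.map (mkc φ a)

theorem length_amp (R : ℕ) (φ : Inst) :
    (amp R φ).length = NN φ * Fintype.card (EE R × QS (YY R)) := by
  simp [amp, List.length_flatMap]

theorem viol_eq (φ : Inst) (τ : ℕ → ZMod 2) :
    viol φ τ = (φ.map fun c => ind (¬ P0 fun κ => τ (c κ))).sum := by
  unfold viol
  induction φ with
  | nil => simp
  | cons c φ ih =>
    rw [List.length_cons, sum_range_succ', List.map_cons, List.sum_cons, ← ih, add_comm]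
    rfl

theorem sum_flatMap' {β : Type} (l : List β) (f : β → List ℝ) :
    (l.flatMap f).sum = (l.map fun a => (f a).sum).sum := by
  induction l with
  | nil => rfl
  | cons a l ih => simp [ih]

theorem viol_amp (R : ℕ) (φ : Inst) (τ : ℕ → ZMod 2) : viol (amp R φ) τ =
    ∑ a : Fin (NN φ), ∑ ω : EE R × QS (YY R), ind (¬ P0 fun κ => τ (mkc φ a ω κ)) := by
  rw [viol_eq, amp, List.map_flatMap, sum_flatMap', ← sum_range
    (fun a => ∑ ω : EE R × QS (YY R), ind (¬ P0 fun κ => τ (mkc φ a ω κ)))]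
  simp only [List.map_map, Function.comp_def, sum_map_toList]
  rfl

theorem cfin_pos {R : ℕ} (φ : Inst) (a : ℕ) (e : EE R) (z : YY R × YY R) :
    cfin e (pos φ a e) z = 1 ↔ pc iD R (fun p => CC φ (walk (SS φ) a ((List.ofFn e.1).take p))
      ((List.ofFn e.1).getD p default)) (List.ofFn e.1) e.2 (op z.1) (op z.2) := by
  rw [cfin]
  split_ifs with h
  · exact iff_of_true rfl fun p q hp hq e => h p q hp hq e hp
  · exact iff_of_false zero_ne_one fun h' => h fun p q hp hq e _ => h' p q hp hq e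

theorem walk_lt {φ : Inst} {a : ℕ} (ha : a < NN φ) (l : List DD) : walk (SS φ) a l < NN φ := by
  have := walk_SF (⟨a, ha⟩ : Fin (NN φ)) l
  rw [← this]; exact Fin.is_lt _

theorem amp_complete (R : ℕ) {φ : Inst} (h : ISat φ) : ISat (amp R φ) := by
  obtain ⟨σ, hσ⟩ := reg_complete h
  let x : ℕ → YY R := fun a l => σ (walk (SS φ) a l.1)
  have hx : ∀ a l, l.length < R → op (x a) l = σ (walk (SS φ) a l) := fun a l hl => dif_pos hl
  let T : ℕ → ZZ R → ZMod 2 := fun a => Sum.elim (fun g => g (x a))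
    (fun t => t.2 (x a, x (walk (SS φ) a ((List.ofFn t.1.1).take t.1.2))))
  let τ : ℕ → ZMod 2 := fun n => if h : n % Fintype.card (ZZ R) < Fintype.card (ZZ R) then
    T (n / Fintype.card (ZZ R)) ((Fintype.equivFin (ZZ R)).symm ⟨_, h⟩) else 0
  have hτ : ∀ a z, τ (nm a z) = T a z := by
    intro a z
    have h1 := (Fintype.equivFin (ZZ R) z).2
    have h2 : nm a z % Fintype.card (ZZ R) = Fintype.equivFin (ZZ R) z := by
      rw [nm, add_comm, Nat.add_mul_mod_self_right, Nat.mod_eq_of_lt h1]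
    have h3 : nm a z / Fintype.card (ZZ R) = a := by
      rw [nm, add_comm, Nat.add_mul_div_right _ _ (by omega), Nat.div_eq_of_lt h1, zero_add]
    simp only [τ, h2, h3, h1, dif_pos, Fin.eta, Equiv.symm_apply_apply]
  refine ⟨τ, fun c hc => ?_⟩
  obtain ⟨a, -, hc⟩ := List.mem_flatMap.1 hc
  obtain ⟨⟨e, q⟩, -, rfl⟩ := List.mem_map.1 hc
  have h1 : cfin e (pos φ a e) (x a, x (walk (SS φ) a ((List.ofFn e.1).take e.2))) = 1 := by
    rw [cfin_pos]
    intro p r hp hr hl
    have hl2 := e.2.2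
    set L := List.ofFn e.1
    have hL : L.length = 2 * R := List.length_ofFn
    rw [hx _ _ (by simp; omega), hx _ _ (by simp; omega)]
    have : L.take e.2 = L.take p ++ L.getD p default :: (L.drop (p + 1)).take r := by
      rw [← hl, List.take_add, List.take_add_one, List.getD_eq_getElem?_getD,
        List.getElem?_eq_getElem (by omega), List.append_assoc]
      rfl
    rw [this, walk_append, walk_cons, walk_rev SS_inv]
    exact hσ _ _
  have h2 := compose_complete h1 q
  refine (congrArg P0 (funext fun κ => ?_)).mp h2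
  unfold qbits mkc qnm
  rcases qidx (cfin e (pos φ a e)) q κ with f | ⟨_ | _, g⟩
  exacts [(hτ a (.inr (e, f))).symm, (hτ _ (.inl g)).symm, (hτ a (.inl g)).symm]

theorem amp_sound {R : ℕ} (hR : 72 * 17280 * 4 * 2 ^ 20 * 1006 ≤ R) {φ : Inst}
    (hm : 0 < φ.length) {ε : ℝ} (hε : 0 < ε) (h : ∀ τ, ε * φ.length ≤ viol φ τ) (τ : ℕ → ZMod 2) :
    min (2 * ε) (1 / (36 * 8 * 2 ^ 20)) * (amp R φ).length ≤ viol (amp R φ) τ := by
  have hR0 : 0 < R := lt_of_lt_of_le (by norm_num) hR
  let La : ℕ → (YY R → ZMod 2) → ZMod 2 := fun a g => τ (nm a (.inl g : ZZ R))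
  have hp := power iD_iD (SF_inv (φ := φ)) (by norm_num) (by norm_num) (spec_SF φ)
    (fun v d => CC φ v d) hR0 (δ := ε / 17280) (by positivity) (reg_sound hm h)
    (fun a => op (dec (La a)))
  set P := pr (α := Fin (NN φ) × (Fin (2 * R) → DD) × Fin (2 * R)) _ with hP
  have h1 : P / 36 ≤ Ex fun a : Fin (NN φ) => Ex fun ω : EE R × QS (YY R) =>
      ind (¬ P0 fun κ => τ (mkc φ a ω κ)) := by
    rw [hP, pr, Ex_prod, ← Ex_div]
    refine Ex_mono fun a => ?_
    rw [← Ex_div, Ex_prod (β := QS (YY R))]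
    refine Ex_mono fun e => ?_
    have h2 := compose_sound (fun f => τ (nm a (.inr (e, f) : ZZ R))) (La a)
      (La (walk (SS φ) a ((List.ofFn e.1).take e.2))) (cfin e (pos φ a e))
    rw [cfin_pos] at h2
    simp only [walk_SF]
    have h3 : ∀ q, qbits (fun f => τ (nm a (.inr (e, f) : ZZ R))) (La a)
        (La (walk (SS φ) a ((List.ofFn e.1).take e.2))) (cfin e (pos φ a e)) q =
        fun κ => τ (mkc φ a (e, q) κ) := by
      intro q
      funext κ
      unfold qbits mkc qnm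
      rcases qidx (cfin e (pos φ a e)) q κ with f | ⟨_ | _, g⟩ <;> rfl
    simp only [h3] at h2
    by_cases h4 : pr (fun q => ¬ P0 fun κ => τ (mkc φ a (e, q) κ)) < 1 / 36
    · rw [ind_neg (not_not.2 (h2 h4)), zero_div]; exact pr_nonneg _
    · exact le_trans (div_le_div_of_nonneg_right (ind_le_one _) (by norm_num)) (not_lt.1 h4)
  have h5 : min (2 * ε) (1 / (36 * 8 * 2 ^ 20)) ≤ P / 36 := by
    rw [show (Fintype.card AA : ℝ) = 32 by simp, div_le_iff₀ (by positivity)] at hp
    have hR' : (72 * 17280 * 4 * 2 ^ 20 * 1006 : ℝ) ≤ R := by exact_mod_cast hR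
    have hP0 : 0 ≤ P := pr_nonneg _
    have hB : (2 : ℝ) / (0.996 * (1 - 0.996)) ≤ 503 := by norm_num
    set t := R * (ε / 17280) with ht
    have hp' : t ≤ P * (4 * 2 ^ 20 * (t + 503)) := hp.trans (by gcongr; norm_num)
    by_cases h6 : t ≤ 503
    · refine (min_le_left _ _).trans ?_
      have : 72 * 4 * 2 ^ 20 * 1006 * ε ≤ t := by rw [ht]; nlinarith
      nlinarith
    · refine (min_le_right _ _).trans ?_
      have : t * 1 ≤ t * (P * (8 * 2 ^ 20)) := by nlinarith
      have := le_of_mul_le_mul_left this (by linarith)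
      linarith
  have : Nonempty (Fin (2 * R)) := ⟨⟨0, by omega⟩⟩
  have c1 := card_pos_real (α := Fin (NN φ))
  have c2 := card_pos_real (α := EE R × QS (YY R))
  rw [viol_amp, length_amp]
  refine (mul_le_mul_of_nonneg_right (h5.trans h1) (Nat.cast_nonneg _)).trans_eq ?_
  rw [Fintype.card_fin] at c1
  simp only [Ex, ← sum_div, Fintype.card_fin, Nat.cast_mul]
  field_simp

theorem amp_lt (R : ℕ) (φ : Inst) : ∀ c ∈ amp R φ, ∀ κ, c κ < NN φ * Fintype.card (ZZ R) := by
  intro c hc κ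
  obtain ⟨a, ha, hc⟩ := List.mem_flatMap.1 hc
  obtain ⟨⟨e, q⟩, -, rfl⟩ := List.mem_map.1 hc
  have key : ∀ a < NN φ, ∀ z : ZZ R, nm a z < NN φ * Fintype.card (ZZ R) := by
    intro a ha z
    have := (Fintype.equivFin (ZZ R) z).2
    unfold nm
    nlinarith [Nat.mul_le_mul_right (Fintype.card (ZZ R)) (Nat.succ_le_of_lt ha)]
  have ha := List.mem_range.1 ha
  unfold mkc qnm
  rcases qidx (cfin e (pos φ a e)) q κ with f | ⟨_ | _, g⟩
  exacts [key _ ha _, key _ (walk_lt ha _) _, key _ ha _]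

section
variable {α : Type} [N487b59b3 α]

theorem PT.ofNat10 {n : α → ℕ} (hn : PT n) : PT (fun a => Fin.ofNat 10 (n a)) :=
  PT.toFin (hn.mod (PT.const 10))

@[fun_prop] theorem mgg_pt {k n : α → ℕ} (i : Bool × Bool) (b : Bool) (hk : PT k) (hn : PT n) :
    PT (fun a => mgg (k a) i b (n a)) := by
  unfold mgg; fun_prop

@[fun_prop] theorem vr_pt {φ : α → Inst} {o : α → ℕ} (hφ : PT φ) (ho : PT o) :
    PT (fun a => vr (φ a) (o a)) :=
  PT.app (f := fun a => (φ a).getD (o a / 10) (fun _ => 0))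
    (PT.lgetD (by fun_prop) hφ (PT.const _)) (PT.ofNat10 ho)

@[fun_prop] theorem occs_pt {φ : α → Inst} {x : α → ℕ} (hφ : PT φ) (hx : PT x) :
    PT (fun a => occs (φ a) (x a)) := by
  unfold occs; fun_prop

@[fun_prop] theorem cloudS_pt {φ : α → Inst} {v : α → ℕ} (i : Bool × Bool) (b : Bool) (hφ : PT φ)
    (hv : PT v) : PT (fun a => cloudS (φ a) i b (v a)) := by
  have h1 : PT (fun a => Nat.sqrt (occs (φ a) (vr (φ a) (v a % (10 * (φ a).length)))).length + 1) :=
    PT.sqrt_succ (by fun_prop) (by fun_prop)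
  unfold cloudS dcd ecd
  refine PT.ite (by fun_prop) ?_ hv
  have h2 := mgg_pt i b h1 (n := fun a => v a / (10 * (φ a).length) *
    (occs (φ a) (vr (φ a) (v a % (10 * (φ a).length)))).length +
    (occs (φ a) (vr (φ a) (v a % (10 * (φ a).length)))).idxOf (v a % (10 * (φ a).length)))
    (by fun_prop)
  exact ((h2.div (by fun_prop)).mul (by fun_prop)).add
    (PT.lgetD (h2.mod (by fun_prop)) (by fun_prop) (PT.const 0))

@[fun_prop] theorem kk_pt {φ : α → Inst} (hφ : PT φ) : PT (fun a => kk (φ a)) :=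
  PT.sqrt_succ (by fun_prop) (by fun_prop)

theorem NN_pt {φ : α → Inst} (hφ : PT φ) : PT (fun a => NN (φ a)) := (kk_pt hφ).mul (kk_pt hφ)

theorem NN_pb {φ : α → Inst} (hφ : PT φ) : PB (fun a => NN (φ a)) := by
  have : PB (fun a => kk (φ a)) := PB.mono (g := fun a => 4 * (10 * (φ a).length) + 1)
    (by fun_prop) fun a => Nat.succ_le_succ (Nat.sqrt_le_self _)
  exact this.mul this

theorem SS_pt {φ : α → Inst} {v : α → ℕ} (d : DD) (hφ : PT φ) (hv : PT v) :
    PT (fun a => SS (φ a) d (v a)) := by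
  obtain ⟨⟨_ | ⟨_ | _, i⟩, b⟩, _ | _⟩ := d <;> try exact hv
  · change PT (fun a => cyc (φ a) b (v a))
    unfold cyc; fun_prop
  · exact mgg_pt i b (kk_pt hφ) hv
  · exact cloudS_pt i b hφ hv

theorem walk_pt {φ : α → Inst} {v : α → ℕ} (l : List DD) (hφ : PT φ) (hv : PT v) :
    PT (fun a => walk (SS (φ a)) (v a) l) := by
  induction l generalizing v with
  | nil => exact hv
  | cons d l ih => exact ih (SS_pt d hφ hv)

theorem amp_pt (R : ℕ) : PT (amp R) := by
  refine PT.flatMap (PT.range (NN_pt PT.id') (NN_pb PT.id')) (PT.map_fixed (fun ω => ?_) _)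
  refine PT.pi fun κ => ?_
  have hφ : PT (fun p : Inst × ℕ => p.1) := by fun_prop
  have ha : PT (fun p : Inst × ℕ => p.2) := by fun_prop
  have h1 : PT (fun p : Inst × ℕ => pos p.1 p.2 ω.1) := PT.pi fun i =>
    (PT.ofNat10 (walk_pt _ hφ ha)).pair (PT.ofNat10 (SS_pt _ hφ (walk_pt _ hφ ha)))
  refine PT.finite_cases h1 (f := fun c p => qnm p.2 (walk (SS p.1) p.2
    ((List.ofFn ω.1.1).take ω.1.2)) ω.1 (qidx (cfin ω.1 c) ω.2 κ)) fun c => ?_
  have hb := walk_pt ((List.ofFn ω.1.1).take ω.1.2) hφ ha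
  rcases qidx (cfin ω.1 c) ω.2 κ with f | ⟨_ | _, g⟩
  · exact (ha.mul (PT.const _)).add (PT.const _)
  · exact (hb.mul (PT.const _)).add (PT.const _)
  · exact (ha.mul (PT.const _)).add (PT.const _)

end

end Pool.Agent.Shared.PCP
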