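import Pool.Agent.Shared.PCP.Prob

/-!
Alphabet reduction: a ten-query long code test for one binary constraint.
-/

set_option linter.unusedSectionVars false

noncomputable section

namespace Pool.Agent.Shared.PCP

open Finset

/-- The fixed predicate on ten bits. -/
def P0 (b : Fin 10 → ZMod 2) : Prop :=
  b 2 = b 0 + b 1 ∧ b 4 = b 3 + b 0 * b 1 ∧ b 5 = b 3 + 1 ∧ b 6 = b 3 + b 8 ∧ b 7 = b 3 + b 9

/-- Parametrisation of the solutions of the predicate. -/
def sol (β : Fin 5 → ZMod 2) : Fin 10 → ZMod 2 :=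
  ![β 0, β 1, β 0 + β 1, β 2, β 2 + β 0 * β 1, β 2 + 1, β 2 + β 3, β 2 + β 4, β 3, β 4]

theorem P0_sol (β : Fin 5 → ZMod 2) : P0 (sol β) := by simp [P0, sol]

theorem exists_sol {b : Fin 10 → ZMod 2} (h : P0 b) : ∃ β, sol β = b := by
  obtain ⟨h1, h2, h3, h4, h5⟩ := h
  refine ⟨![b 0, b 1, b 3, b 8, b 9], funext fun κ => ?_⟩
  fin_cases κ <;> simp [sol, h1, h2, h3, h4, h5]

theorem sol_surj : ∀ (κ : Fin 10) (t : ZMod 2), ∃ β, sol β κ = t := by decide

theorem z2_ne : ∀ a b c : ZMod 2, a ≠ c → b ≠ c → a = b := by decide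
theorem z2_one : ∀ a : ZMod 2, a ≠ 0 → a = 1 := by decide

theorem pr_half {G : Type} [AddCommGroup G] [Fintype G] (φ : G → ZMod 2)
    (hφ : ∀ a b, φ (a + b) = φ a + φ b) {a : G} (ha : φ a ≠ 0) :
    pr (fun x => φ x ≠ 0) = 1 / 2 := by
  have h1 : pr (fun x => φ (x + a) ≠ 0) = pr (fun x => φ x ≠ 0) :=
    Ex_add_right (fun x => ind (φ x ≠ 0)) a
  have h2 : pr (fun x => φ (x + a) ≠ 0) = pr (fun x => ¬ φ x ≠ 0) := by
    refine pr_congr fun x => ?_
    rw [hφ, z2_one _ ha]
    generalize φ x = t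
    revert t; decide
  rw [h2, pr_not] at h1
  linarith

/-- Linearity testing with self-correction. -/
theorem blr {G : Type} [AddCommGroup G] [Fintype G] (L : G → ZMod 2) {ε : ℝ} (hε : 6 * ε < 1)
    (h : pr (fun z : G × G => L (z.1 + z.2) ≠ L z.1 + L z.2) ≤ ε) :
    ∃ φ : G → ZMod 2, (∀ a b, φ (a + b) = φ a + φ b) ∧
      ∀ a, pr (fun x => L (a + x) ≠ L x + φ a) ≤ 2 * ε := by
  have key : ∀ a, ∃ c, pr (fun x => L (a + x) ≠ L x + c) ≤ 2 * ε := by
    intro a
    have h1 : pr (fun z : G × G => L (a + z.1 + z.2) ≠ L (a + z.1) + L z.2) ≤ ε := by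
      rw [pr_prod] at h ⊢
      exact (Ex_add_left (fun x => pr fun y => L (x + y) ≠ L x + L y) a).trans_le h
    have h2 : pr (fun z : G × G => L (a + z.2 + z.1) ≠ L (a + z.2) + L z.1) ≤ ε :=
      (Ex_equiv (Equiv.prodComm G G)
        (fun z => ind (L (a + z.1 + z.2) ≠ L (a + z.1) + L z.2))).trans_le h1
    have h3 : pr (fun z : G × G => L (a + z.2) ≠ L z.2 + (L (a + z.1) - L z.1)) ≤ 2 * ε := by
      refine (pr_union fun z hz => ?_).trans ((add_le_add h1 h2).trans_eq (by ring))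
      by_contra h4
      push Not at h4
      rw [add_right_comm, h4.2] at h4
      exact hz (by linear_combination h4.1)
    rw [pr_prod] at h3
    obtain ⟨x, hx⟩ := exists_le_Ex
      (fun x => pr fun y => L (a + y) ≠ L y + (L (a + x) - L x))
    exact ⟨_, hx.trans h3⟩
  choose φ hφ using key
  refine ⟨φ, fun a b => ?_, hφ⟩
  have h1 : pr (fun x => L (b + (a + x)) ≠ L (a + x) + φ b) ≤ 2 * ε :=
    (Ex_add_left (fun x => ind (L (b + x) ≠ L x + φ b)) a).trans_le (hφ b)
  have h2 : pr (fun x => L (a + x) ≠ L x + φ a ∨ (L (b + (a + x)) ≠ L (a + x) + φ b ∨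
      L (a + b + x) ≠ L x + φ (a + b))) < 1 := by
    refine ((pr_union fun _ hx => hx).trans (add_le_add (hφ a) ((pr_union fun _ hx => hx).trans
      (add_le_add h1 (hφ (a + b)))))).trans_lt (by linarith)
  obtain ⟨x, hx⟩ := exists_not_of_pr_lt h2
  push Not at hx
  obtain ⟨e1, e2, e3⟩ := hx
  rw [← add_assoc, add_comm b a, e3, e1] at e2
  linear_combination e2

variable {Y : Type} [Fintype Y] [DecidableEq Y]

/-- The sample space of the test. -/
abbrev QS (Y : Type) := (Y × Y → ZMod 2) × (Y × Y → ZMod 2) × (Y × Y → ZMod 2) × (Y → ZMod 2)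

/-- The ten query positions: in the table of the edge or in the table of one of its ends. -/
def qidx (c : Y × Y → ZMod 2) (q : QS Y) : Fin 10 → (Y × Y → ZMod 2) ⊕ (Bool × (Y → ZMod 2)) :=
  ![.inl q.1, .inl q.2.1, .inl (q.1 + q.2.1), .inl q.2.2.1, .inl (q.1 * q.2.1 + q.2.2.1),
    .inl (c + q.2.2.1), .inl ((fun z => q.2.2.2 z.1) + q.2.2.1),
    .inl ((fun z => q.2.2.2 z.2) + q.2.2.1), .inr (true, q.2.2.2), .inr (false, q.2.2.2)]

/-- The answers to the ten queries. -/
def qbits (L : (Y × Y → ZMod 2) → ZMod 2) (La Lb : (Y → ZMod 2) → ZMod 2) (c : Y × Y → ZMod 2)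
    (q : QS Y) (κ : Fin 10) : ZMod 2 :=
  Sum.elim L (fun t => cond t.1 (La t.2) (Lb t.2)) (qidx c q κ)

theorem compose_complete {c : Y × Y → ZMod 2} {x y : Y} (h : c (x, y) = 1) (q : QS Y) :
    P0 (qbits (fun f => f (x, y)) (fun g => g x) (fun g => g y) c q) := by
  simp [P0, qbits, qidx, h, add_comm]

/-- Decoding a table to the nearest point evaluation. -/
def dec [Nonempty Y] (L : (Y → ZMod 2) → ZMod 2) : Y :=
  (exists_min_image univ (fun y : Y => pr fun g => L g ≠ g y) univ_nonempty).choose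

theorem dec_eq [Nonempty Y] {L : (Y → ZMod 2) → ZMod 2} {y : Y}
    (h : pr (fun g => L g ≠ g y) < 1 / 4) : dec L = y := by
  by_contra h1
  have h2 := (exists_min_image univ (fun y : Y => pr fun g => L g ≠ g y)
    univ_nonempty).choose_spec.2 y (mem_univ _)
  change pr (fun g => L g ≠ g (dec L)) ≤ _ at h2
  have h3 := pr_half (G := Y → ZMod 2) (fun g => g (dec L) - g y) (fun a b => by simp; ring)
    (a := Pi.single y 1) (by simp [Pi.single_eq_of_ne h1])
  have h4 : pr (fun g : Y → ZMod 2 => g (dec L) - g y ≠ 0) ≤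
      pr (fun g => L g ≠ g (dec L)) + pr (fun g => L g ≠ g y) := pr_union fun g hg => by
    by_contra h5
    push Not at h5
    exact hg (by rw [← h5.1, ← h5.2, sub_self])
  linarith

theorem point_eval {X : Type} [Fintype X] [DecidableEq X] (φ : (X → ZMod 2) → ZMod 2)
    (h1 : ∀ a b, φ (a + b) = φ a + φ b) (h2 : ∀ a b, φ (a * b) = φ a * φ b) {c : X → ZMod 2}
    (hc : φ c = 1) : ∃ z, ∀ f, φ f = f z := by
  have h0 : φ 0 = 0 := by have := h1 0 0; rw [add_zero] at this; linear_combination -this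
  let Φ : (X → ZMod 2) →+ ZMod 2 := ⟨⟨φ, h0⟩, h1⟩
  have h3 : ∀ f, φ f = ∑ z, f z * φ (Pi.single z 1) := by
    intro f
    conv_lhs => rw [← univ_sum_single f]
    refine (map_sum Φ _ _).trans (sum_congr rfl fun z _ => ?_)
    change φ _ = _
    by_cases hz : f z = 0
    · simp [hz, h0]
    · simp [z2_one _ hz]
  obtain ⟨z, -, hz⟩ := exists_ne_zero_of_sum_ne_zero ((h3 c).symm.trans_ne (hc.trans_ne one_ne_zero))
  have h4 : φ (Pi.single z 1) = 1 := z2_one _ (right_ne_zero_of_mul hz)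
  refine ⟨z, fun f => ?_⟩
  rw [h3, sum_eq_single z, h4, mul_one]
  · intro y _ hy
    have := h2 (Pi.single y 1) (Pi.single z 1)
    rw [h4, mul_one, show (Pi.single y 1 * Pi.single z 1 : X → ZMod 2) = 0 by
      funext t; by_cases ht : t = z <;> simp [ht, Pi.single_apply, Ne.symm hy], h0] at this
    rw [← this, mul_zero]
  · simp

theorem compose_sound [Nonempty Y] (L : (Y × Y → ZMod 2) → ZMod 2) (La Lb : (Y → ZMod 2) → ZMod 2)
    (c : Y × Y → ZMod 2) (h : pr (fun q => ¬ P0 (qbits L La Lb c q)) < 1 / 36) :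
    c (dec La, dec Lb) = 1 := by
  set ε := pr (fun q => ¬ P0 (qbits L La Lb c q)) with hε
  have sub : ∀ {p : QS Y → Prop}, (∀ q, P0 (qbits L La Lb c q) → ¬ p q) → pr p ≤ ε :=
    fun hp => pr_mono fun q hq h => hp q h hq
  have e1 : ∀ p : (Y × Y → ZMod 2) → (Y × Y → ZMod 2) → Prop,
      pr (fun q : QS Y => p q.1 q.2.1) = pr fun z : _ × _ => p z.1 z.2 := fun p => by
    rw [pr_prod, pr_prod]
    exact Ex_congr fun f => Ex_fst (fun g => ind (p f g))
  have e2 : ∀ p : (Y × Y → ZMod 2) → (Y → ZMod 2) → Prop,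
      pr (fun q : QS Y => p q.2.2.1 q.2.2.2) = pr fun z : _ × _ => p z.1 z.2 := fun p =>
    (Ex_snd (fun z : _ × _ × _ => ind (p z.2.1 z.2.2))).trans
      (Ex_snd (fun z : _ × _ => ind (p z.1 z.2)))
  obtain ⟨φ, h1, h2⟩ := blr L (ε := ε) (by linarith) ((e1 fun f g => L (f + g) ≠ L f + L g).symm.trans_le
    (sub fun q hq => not_not.2 (by simpa [qbits, qidx] using hq.1)))
  have corr : ∀ u : QS Y → (Y × Y → ZMod 2), (∀ a b h h' g, u (a, b, h, g) = u (a, b, h', g)) →
      pr (fun q : QS Y => L (u q + q.2.2.1) ≠ L q.2.2.1 + φ (u q)) ≤ 2 * ε := by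
    intro u hu
    have h0 : 0 ≤ 2 * ε := (pr_nonneg _).trans (h2 0)
    rw [pr_prod]
    refine Ex_le_const h0 fun a => ?_
    rw [pr_prod]
    refine Ex_le_const h0 fun b => ?_
    rw [pr, Ex_prod']
    refine Ex_le_const h0 fun g => ?_
    simp only [fun h => hu a b h 0 g]
    exact h2 _
  have near : pr (fun f => L f ≠ φ f) ≤ 3 * ε := by
    have a1 : pr (fun z : _ × _ => L (z.1 + z.2) ≠ L z.2 + φ z.1) ≤ 2 * ε := by
      rw [pr_prod]; exact Ex_le_const ((pr_nonneg _).trans (h2 0)) h2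
    have a2 := (e1 fun f g => L (f + g) ≠ L f + L g).symm.trans_le
      (sub fun q hq => not_not.2 (by simpa [qbits, qidx] using hq.1))
    refine (Ex_fst (β := Y × Y → ZMod 2) (fun f => ind (L f ≠ φ f))).symm.trans_le
      ((pr_union fun z hz => ?_).trans ((add_le_add a1 a2).trans_eq (by ring)))
    by_contra h4
    push Not at h4
    exact hz (by linear_combination h4.1 - h4.2)
  have hmul : ∀ a b, φ (a * b) = φ a * φ b := by
    by_contra h3
    push Not at h3
    obtain ⟨a, b, hab⟩ := h3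
    have b1 := pr_half (fun f => φ (f * b) - φ f * φ b) (fun f g => by rw [add_mul, h1, h1]; ring)
      (sub_ne_zero.2 hab)
    have b2 : 1 / 4 ≤ pr (fun z : _ × _ => φ (z.1 * z.2) - φ z.1 * φ z.2 ≠ 0) := by
      rw [pr_prod]
      have : Ex (fun f => ind (φ (f * b) - φ f * φ b ≠ 0) * (1 / 2)) = 1 / 4 := by
        rw [Ex_mul_right]; change pr _ * _ = _; rw [b1]; norm_num
      refine this.symm.trans_le (Ex_mono fun f => ?_)
      by_cases hf : φ (f * b) - φ f * φ b ≠ 0
      · rw [ind_pos hf, one_mul]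
        exact (pr_half (fun g => φ (f * g) - φ f * φ g)
          (fun g g' => by rw [mul_add, h1, h1]; ring) hf).ge
      · rw [ind_neg hf, zero_mul]; exact pr_nonneg _
    rw [← e1 fun f g => φ (f * g) - φ f * φ g ≠ 0] at b2
    have b3 : pr (fun q : QS Y => L q.1 ≠ φ q.1) ≤ 3 * ε :=
      (Ex_fst (fun f => ind (L f ≠ φ f))).trans_le near
    have b4 : pr (fun q : QS Y => L q.2.1 ≠ φ q.2.1) ≤ 3 * ε :=
      ((Ex_snd (fun z : _ × _ × _ => ind (L z.1 ≠ φ z.1))).trans
        (Ex_fst (fun f => ind (L f ≠ φ f)))).trans_le near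
    have b5 := corr (fun q => q.1 * q.2.1) (fun _ _ _ _ _ => rfl)
    have b6 : pr (fun q : QS Y => L (q.1 * q.2.1 + q.2.2.1) ≠ L q.2.2.1 + L q.1 * L q.2.1) ≤ ε :=
      sub fun q hq => not_not.2 (by simpa [qbits, qidx] using hq.2.1)
    have b7 := (pr_union (p := fun q : QS Y => φ (q.1 * q.2.1) - φ q.1 * φ q.2.1 ≠ 0)
      fun q hq => by
        by_contra h4
        push Not at h4
        obtain ⟨⟨c1, c2⟩, c3, c4⟩ := h4
        rw [c1, c2, c3] at c4
        exact hq (by linear_combination c4)).trans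
      (add_le_add ((pr_union fun _ h => h).trans (add_le_add b3 b4))
        ((pr_union fun _ h => h).trans (add_le_add b5 b6)))
    linarith
  have hc : φ c = 1 := by
    have b5 := corr (fun _ => c) (fun _ _ _ _ _ => rfl)
    have b6 : pr (fun q : QS Y => L (c + q.2.2.1) ≠ L q.2.2.1 + 1) ≤ ε :=
      sub fun q hq => not_not.2 (by simpa [qbits, qidx] using hq.2.2.1)
    obtain ⟨q, hq⟩ := exists_not_of_pr_lt (((pr_union fun _ h => h).trans
      (add_le_add b5 b6)).trans_lt (by linarith))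
    push Not at hq
    linear_combination hq.2 - hq.1
  obtain ⟨z, hz⟩ := point_eval φ h1 hmul hc
  have fin : ∀ (M : (Y → ZMod 2) → ZMod 2) (π : Y × Y → Y),
      pr (fun q : QS Y => L ((fun t => q.2.2.2 (π t)) + q.2.2.1) ≠ L q.2.2.1 + M q.2.2.2) ≤ ε →
      dec M = π z := by
    intro M π hM
    have b5 := corr (fun q t => q.2.2.2 (π t)) (fun _ _ _ _ _ => rfl)
    have b6 := (e2 fun _ g => M g ≠ g (π z)).trans (Ex_snd (fun g => ind (M g ≠ g (π z))))
    have b7 := (pr_union (p := fun q : QS Y => M q.2.2.2 ≠ q.2.2.2 (π z)) fun q hq => by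
        by_contra h4
        push Not at h4
        obtain ⟨c1, c2⟩ := h4
        rw [hz, c2] at c1
        exact hq (by linear_combination c1)).trans (add_le_add b5 hM)
    refine dec_eq (lt_of_eq_of_lt b6.symm (b7.trans_lt (by linarith)))
  rw [fin La Prod.fst (sub fun q hq => not_not.2 (by simpa [qbits, qidx] using hq.2.2.2.1)),
    fin Lb Prod.snd (sub fun q hq => not_not.2 (by simpa [qbits, qidx] using hq.2.2.2.2))]
  exact (hz c).symm.trans hc

end Pool.Agent.Shared.PCP
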