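import Pool.Agent.Shared.PCP.Amp
import Pool.Agent.Shared.CookLevin

/-!
The PCP theorem, by iterated gap amplification.
-/

noncomputable section

namespace Pool.Agent.Shared.PCP

open Finset Pool.Agent.Shared.PolyTime N487b59b3 Pool.Agent.Shared.CookLevin

/-- Negation gadget. -/
def T1 (x y : ℕ) : Fin 10 → ℕ := ![2, 2, 2, x, x, y, x, x, 2, 2]

/-- Product gadget. -/
def T2 (u v s w : ℕ) : Fin 10 → ℕ := ![u, v, s, 2, w, 6, 2, 2, 2, 2]

/-- The variable holding the negation of a literal. -/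
def nl (l : Bool × ℕ) : ℕ := cond l.1 (4 * l.2 + 1) (4 * l.2)

/-- The constraints of a clause. -/
def cl (C : (Bool × ℕ) × (Bool × ℕ) × (Bool × ℕ)) (j : ℕ) : Inst :=
  [T1 (4 * C.1.2) (4 * C.1.2 + 1), T1 (4 * C.2.1.2) (4 * C.2.1.2 + 1),
    T1 (4 * C.2.2.2) (4 * C.2.2.2 + 1), T2 (nl C.1) (nl C.2.1) (12 * j + 3) (12 * j + 7),
    T2 (12 * j + 7) (nl C.2.2) (12 * j + 11) 2]

/-- The initial instance. -/
def start (ψ : E3 ℕ) : Inst := T1 2 6 :: ψ.zipIdx.flatMap fun p => cl p.1 p.2

theorem P0_T1 (τ : ℕ → ZMod 2) (x y : ℕ) :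
    P0 (fun κ => τ (T1 x y κ)) ↔ τ 2 = 0 ∧ τ y = τ x + 1 := by
  simp only [P0, T1, Matrix.cons_val]
  generalize τ 2 = a; generalize τ x = b; generalize τ y = c
  revert a b c; decide

theorem P0_T2 (τ : ℕ → ZMod 2) (u v s w : ℕ) :
    P0 (fun κ => τ (T2 u v s w κ)) ↔ τ s = τ u + τ v ∧ τ w = τ u * τ v ∧ τ 6 = 1 ∧ τ 2 = 0 := by
  simp only [P0, T2, Matrix.cons_val]
  generalize τ 2 = a; generalize τ u * τ v = b; generalize τ 6 = c; generalize τ w = d
  generalize (τ s = τ u + τ v) = e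
  refine and_congr_right fun _ => ?_
  revert a b c d; decide

theorem sat_start (ψ : E3 ℕ) : ISat (start ψ) ↔ Sat3 ψ := by
  constructor
  · rintro ⟨τ, h⟩
    refine ⟨fun x => decide (τ (4 * x) = 1), fun C hC => ?_⟩
    obtain ⟨j, hj, rfl⟩ := List.getElem_of_mem hC
    have hm : ∀ c ∈ cl ψ[j] j, P0 fun κ => τ (c κ) := fun c hc => h c (List.mem_cons_of_mem _
      (List.mem_flatMap.2 ⟨(ψ[j], j), by simp [List.mem_zipIdx_iff_getElem?], hc⟩))
    simp only [cl, List.mem_cons, List.not_mem_nil, or_false, forall_eq_or_imp, forall_eq,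
      P0_T1, P0_T2] at hm
    obtain ⟨⟨h0, h1⟩, ⟨-, h2⟩, ⟨-, h3⟩, ⟨-, h4, -, -⟩, -, h5, -, -⟩ := hm
    rw [h0, h4] at h5
    have key : ∀ l : Bool × ℕ, τ (4 * l.2 + 1) = τ (4 * l.2) + 1 → τ (nl l) = 0 →
        decide (τ (4 * l.2) = 1) = l.1 := by
      rintro ⟨_ | _, x⟩ e1 e2 <;> simp only [nl, cond_true, cond_false] at e1 e2 ⊢
      · simp [e2]
      · rw [e1] at e2
        generalize τ (4 * x) = t at e2
        revert t; decide
    rcases mul_eq_zero.1 h5.symm with h6 | h6
    · rcases mul_eq_zero.1 h6 with h6 | h6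
      · exact .inl (key _ h1 h6)
      · exact .inr (.inl (key _ h2 h6))
    · exact .inr (.inr (key _ h3 h6))
  · rintro ⟨t, h⟩
    let ν : Bool × ℕ → ZMod 2 := fun l => if t l.2 = l.1 then 0 else 1
    let C : ℕ → (Bool × ℕ) × (Bool × ℕ) × (Bool × ℕ) := fun j => ψ.getD j default
    let τ : ℕ → ZMod 2 := fun n =>
      if n % 4 = 0 then ν (false, n / 4) else if n % 4 = 1 then ν (true, n / 4)
      else if n = 2 then 0 else if n = 6 then 1
      else if n % 12 = 3 then ν (C (n / 12)).1 + ν (C (n / 12)).2.1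
      else if n % 12 = 7 then ν (C (n / 12)).1 * ν (C (n / 12)).2.1
      else ν (C (n / 12)).1 * ν (C (n / 12)).2.1 + ν (C (n / 12)).2.2
    have h2 : τ 2 = 0 := rfl
    have h6 : τ 6 = 1 := rfl
    have ha : ∀ x, τ (4 * x) = ν (false, x) := fun x => by simp [τ]
    have hb : ∀ x, τ (4 * x + 1) = ν (true, x) := fun x => by
      simp only [τ]; rw [if_neg (by omega), if_pos (by omega), show (4 * x + 1) / 4 = x by omega]
    have hn : ∀ l, τ (nl l) = ν l := by rintro ⟨_ | _, x⟩; exacts [ha x, hb x]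
    have hneg : ∀ x, τ (4 * x + 1) = τ (4 * x) + 1 := fun x => by
      have e : (0 : ZMod 2) = 1 + 1 := by decide
      rw [ha, hb]; simp only [ν]
      cases t x
      · simp
      · simpa using e
    refine ⟨τ, fun c hc => ?_⟩
    rcases List.mem_cons.1 hc with rfl | hc
    · rw [P0_T1, h2, h6]; simp
    obtain ⟨⟨D, j⟩, hj, hc⟩ := List.mem_flatMap.1 hc
    rw [List.mem_zipIdx_iff_getElem?] at hj
    have hD : C j = D := by simp only [C, List.getD_eq_getElem?_getD]; rw [hj]; rfl
    have h3 : τ (12 * j + 3) = ν D.1 + ν D.2.1 := by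
      simp only [τ]
      rw [if_neg (by omega), if_neg (by omega), if_neg (by omega), if_neg (by omega),
        if_pos (by omega), show (12 * j + 3) / 12 = j by omega, hD]
    have h7 : τ (12 * j + 7) = ν D.1 * ν D.2.1 := by
      simp only [τ]
      rw [if_neg (by omega), if_neg (by omega), if_neg (by omega), if_neg (by omega),
        if_neg (by omega), if_pos (by omega), show (12 * j + 7) / 12 = j by omega, hD]
    have h11 : τ (12 * j + 11) = ν D.1 * ν D.2.1 + ν D.2.2 := by
      simp only [τ]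
      rw [if_neg (by omega), if_neg (by omega), if_neg (by omega), if_neg (by omega),
        if_neg (by omega), if_neg (by omega), show (12 * j + 11) / 12 = j by omega, hD]
    have hz : 0 = ν D.1 * ν D.2.1 * ν D.2.2 := by
      rcases h D (List.mem_of_getElem? hj) with e | e | e <;> simp [ν, e]
    simp only [cl, List.mem_cons, List.not_mem_nil, or_false] at hc
    rcases hc with rfl | rfl | rfl | rfl | rfl <;>
      simp only [P0_T1, P0_T2, h2, h6, hneg, hn, h3, h7, h11, ← hz, and_self]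

theorem start_pt {α : Type} [N487b59b3 α] {ψ : α → E3 ℕ} (h : PT ψ) :
    PT (fun a => start (ψ a)) := by
  have t1 : ∀ {β : Type} [N487b59b3 β] {x y : β → ℕ}, PT x → PT y → PT fun a => T1 (x a) (y a) :=
    fun hx hy => PT.pi fun κ => by fin_cases κ <;> first | exact hx | exact hy | exact PT.const _
  have t2 : ∀ {β : Type} [N487b59b3 β] {u v s w : β → ℕ}, PT u → PT v → PT s → PT w →
      PT fun a => T2 (u a) (v a) (s a) (w a) :=
    fun hu hv hs hw => PT.pi fun κ => by
      fin_cases κ <;> first | exact hu | exact hv | exact hs | exact hw | exact PT.const _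
  refine (PT.const _).cons (PT.flatMap h.zipIdx ?_)
  unfold cl nl
  exact (t1 (by fun_prop) (by fun_prop)).cons ((t1 (by fun_prop) (by fun_prop)).cons
    ((t1 (by fun_prop) (by fun_prop)).cons ((t2 (by fun_prop) (by fun_prop) (by fun_prop)
      (by fun_prop)).cons ((t2 (by fun_prop) (by fun_prop) (by fun_prop)
        (by fun_prop)).cons (PT.const _)))))

theorem one_le_viol {φ : Inst} (h : ¬ ISat φ) (τ : ℕ → ZMod 2) : 1 ≤ viol φ τ := by
  have : ∃ c ∈ φ, ¬ P0 fun κ => τ (c κ) := by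
    by_contra h1
    push Not at h1
    exact h ⟨τ, h1⟩
  obtain ⟨c, hc, h1⟩ := this
  rw [viol_eq]
  refine (ind_pos h1).ge.trans (List.single_le_sum (fun x hx => ?_) _ (List.mem_map_of_mem hc))
  obtain ⟨c, -, rfl⟩ := List.mem_map.1 hx
  exact ind_nonneg _

theorem amp_pos {R : ℕ} (hR : 0 < R) (φ : Inst) : 0 < (amp R φ).length := by
  have : Nonempty (Fin (2 * R)) := ⟨⟨0, by omega⟩⟩
  rw [length_amp]
  exact Nat.mul_pos ((Nat.zero_le _).trans_lt (lt_NN φ)) Fintype.card_pos

theorem iter_len {R : ℕ} (hR : 0 < R) {φ : Inst} (h : 0 < φ.length) (i : ℕ) :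
    0 < ((amp R)^[i] φ).length ∧
      ((amp R)^[i] φ).length ≤ (160 * Fintype.card (EE R × QS (YY R))) ^ i * φ.length := by
  induction i with
  | zero => simpa using h
  | succ i ih =>
    rw [Function.iterate_succ_apply']
    refine ⟨amp_pos hR _, ?_⟩
    rw [length_amp]
    calc _ ≤ 160 * ((160 * Fintype.card (EE R × QS (YY R))) ^ i * φ.length) *
          Fintype.card (EE R × QS (YY R)) :=
          Nat.mul_le_mul_right _ ((NN_le ih.1).trans (Nat.mul_le_mul_left _ ih.2))
      _ = _ := by ring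

theorem iter_pt {α : Type} [N487b59b3 α] {R : ℕ} (hR : 0 < R) {φ : α → Inst} (h : PT φ)
    (h0 : ∀ a, 0 < (φ a).length) : PT fun a => (amp R)^[sz (φ a).length] (φ a) := by
  set K := 160 * Fintype.card (EE R × QS (YY R)) with hK
  have hK0 : 0 < K := by
    have : Nonempty (Fin (2 * R)) := ⟨⟨0, by omega⟩⟩
    exact Nat.mul_pos (by norm_num) Fintype.card_pos
  let M : α → ℕ := fun a => (2 * (φ a).length) ^ K * (φ a).length
  have hM : PB M := by unfold M; fun_prop
  have hlen : ∀ a, ∀ i ≤ sz (φ a).length, ((amp R)^[i] (φ a)).length ≤ M a := by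
    intro a i hi
    refine (iter_len hR (h0 a) i).2.trans (Nat.mul_le_mul_right _ ?_)
    have h1 : 2 ^ i ≤ 2 * (φ a).length := by
      rw [sz_nat] at hi
      have h2 : 2 ^ ((φ a).length.size - 1) ≤ (φ a).length :=
        Nat.lt_size.1 (by have := Nat.size_pos.2 (h0 a); omega)
      calc 2 ^ i ≤ 2 ^ ((φ a).length.size - 1 + 1) := Nat.pow_le_pow_right (by norm_num) (by omega)
        _ ≤ _ := by rw [pow_succ]; omega
    calc K ^ i ≤ (2 ^ K) ^ i := Nat.pow_le_pow_left Nat.lt_two_pow_self.le _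
      _ = (2 ^ i) ^ K := by rw [← pow_mul, ← pow_mul, mul_comm]
      _ ≤ _ := Nat.pow_le_pow_left h1 _
  refine PT.iterate (f := fun _ => amp R) ((amp_pt R).comp' (by fun_prop)) (by fun_prop)
    (by fun_prop) h (B := fun a => sz (φ a) +
      M a * (2 * (10 * (2 * (160 * M a * Fintype.card (ZZ R)) + 1)) + 1)) (by fun_prop) ?_
  intro a i hi
  cases i with
  | zero => exact Nat.le_add_right _ _
  | succ i =>
    have h1 := hlen a _ hi
    have h2 := hlen a i (by omega)
    have h3 := (iter_len hR (h0 a) i).1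
    rw [Function.iterate_succ_apply'] at h1 ⊢
    refine le_trans ((sz_list_le fun c hc => ?_).trans (Nat.mul_le_mul_right _ h1))
      (Nat.le_add_left _ _)
    refine (sz_fun_le fun κ => ?_).trans_eq (by rw [Fintype.card_fin])
    exact (sz_nat_le _).trans ((amp_lt R _ c hc κ).le.trans (Nat.mul_le_mul_right _
      ((NN_le h3).trans (Nat.mul_le_mul_left _ h2))))

/-- **The PCP theorem.** -/
theorem pcp : ∃ ε : ℝ, 0 < ε ∧ ∀ L ∈ N68a2faeb.NP, ∃ f : List Bool → Inst, PT f ∧ ∀ x,
    0 < (f x).length ∧ (L x = true → ISat (f x)) ∧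
      (¬ L x = true → ∀ τ, ε * (f x).length ≤ viol (f x) τ) := by
  obtain ⟨R, hR⟩ : ∃ R, 72 * 17280 * 4 * 2 ^ 20 * 1006 ≤ R := ⟨_, le_rfl⟩
  have hR0 : 0 < R := lt_of_lt_of_le (by norm_num) hR
  refine ⟨1 / (36 * 8 * 2 ^ 20), by norm_num, fun L hL => ?_⟩
  obtain ⟨ψ, hψ, h⟩ := cook_levin_e3 hL
  have h0 : ∀ x, 0 < (start (ψ x)).length := fun x => Nat.succ_pos _
  refine ⟨_, iter_pt hR0 (start_pt hψ) h0, fun x => ⟨(iter_len hR0 (h0 x) _).1, fun hx => ?_,
    fun hx => ?_⟩⟩
  · have h1 := (sat_start _).2 ((h x).2.2.1 hx)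
    generalize sz (start (ψ x)).length = t
    induction t with
    | zero => exact h1
    | succ t ih => rw [Function.iterate_succ_apply']; exact amp_complete R ih
  · have h1 := one_le_viol fun h2 => hx ((h x).2.2.2 ((sat_start _).1 h2))
    set φ := start (ψ x)
    have hm : (0 : ℝ) < φ.length := by exact_mod_cast h0 x
    have key : ∀ t : ℕ, ∀ τ, min ((2 : ℝ) ^ t / φ.length) (1 / (36 * 8 * 2 ^ 20)) *
        ((amp R)^[t] φ).length ≤ viol ((amp R)^[t] φ) τ := by
      intro t
      induction t with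
      | zero =>
        intro τ
        refine (mul_le_mul_of_nonneg_right (min_le_left _ _) hm.le).trans (le_trans ?_ (h1 τ))
        simp [hm.ne']
      | succ t ih =>
        intro τ
        rw [Function.iterate_succ_apply']
        refine le_trans (mul_le_mul_of_nonneg_right ?_ (Nat.cast_nonneg _))
          (amp_sound hR (iter_len hR0 (h0 x) t).1 (by positivity) ih τ)
        refine le_min ?_ (min_le_right _ _)
        rw [mul_min_of_nonneg _ _ (by norm_num)]
        exact min_le_min (le_of_eq (by ring)) (by norm_num)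
    intro τ
    refine le_trans (le_of_eq ?_) (key _ τ)
    rw [min_eq_right]
    refine le_trans (by norm_num) ((one_le_div hm).2 ?_)
    rw [sz_nat]
    exact_mod_cast (Nat.lt_size_self _).le

end Pool.Agent.Shared.PCP
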