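import Pool.Agent.Shared.PCP.Margulis

/-!
The Margulis expander on the numbers below `k * k`.
-/

namespace Pool.Agent.Shared.PCP

open Finset

/-- The generator `i` (if `b`) or its inverse (if not `b`) acting on the numbers below `k * k`;
larger numbers are fixed. -/
def mgg (k : ℕ) (i : Bool × Bool) (b : Bool) (n : ℕ) : ℕ :=
  if n < k * k then
    cond i.1 ((n / k + cond b 1 (k - 1) * (2 * (n % k) + i.2.toNat)) % k * k + n % k)
      (n / k * k + (n % k + cond b 1 (k - 1) * (2 * (n / k) + i.2.toNat)) % k)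
  else n

section
variable {k : ℕ} [NeZero k]

/-- The number of a point of the torus. -/
def tnum (z : ZMod k × ZMod k) : ℕ := z.1.val * k + z.2.val

theorem tnum_lt (z : ZMod k × ZMod k) : tnum z < k * k := by
  have h1 := ZMod.val_lt z.1
  have h2 := ZMod.val_lt z.2
  unfold tnum
  nlinarith [Nat.mul_le_mul_right k (Nat.succ_le_of_lt h1)]

theorem tnum_div (z : ZMod k × ZMod k) : tnum z / k = z.1.val := by
  have h2 := ZMod.val_lt z.2
  unfold tnum
  rw [add_comm, Nat.add_mul_div_right _ _ (by omega), Nat.div_eq_of_lt h2, zero_add]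

theorem tnum_mod (z : ZMod k × ZMod k) : tnum z % k = z.2.val := by
  unfold tnum
  rw [add_comm, Nat.add_mul_mod_self_right, Nat.mod_eq_of_lt (ZMod.val_lt z.2)]

theorem exists_tnum {n : ℕ} (h : n < k * k) : ∃ z : ZMod k × ZMod k, tnum z = n := by
  have hk := Nat.pos_of_ne_zero (NeZero.ne k)
  refine ⟨((n / k : ℕ), (n % k : ℕ)), ?_⟩
  unfold tnum
  rw [ZMod.val_natCast, ZMod.val_natCast, Nat.mod_mod,
    Nat.mod_eq_of_lt ((Nat.div_lt_iff_lt_mul hk).2 h), Nat.div_add_mod']

theorem sum_tnum (f : ℕ → ℝ) : ∑ n ∈ range (k * k), f n = ∑ z : ZMod k × ZMod k, f (tnum z) := by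
  symm
  refine sum_bij (fun z _ => tnum z) (fun z _ => mem_range.2 (tnum_lt z)) ?_ ?_ (fun _ _ => rfl)
  · intro z _ y _ h
    refine Prod.ext (ZMod.val_injective _ ?_) (ZMod.val_injective _ ?_)
    · rw [← tnum_div, h, tnum_div]
    · rw [← tnum_mod, h, tnum_mod]
  · intro n hn
    obtain ⟨z, hz⟩ := exists_tnum (mem_range.1 hn)
    exact ⟨z, mem_univ _, hz⟩

theorem mgg_val (x y : ZMod k) (b c : Bool) :
    (x.val + cond b 1 (k - 1) * (2 * y.val + c.toNat)) % k =
      (cond b (x + (2 * y + cond c 1 0)) (x - (2 * y + cond c 1 0))).val := by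
  have hk := Nat.pos_of_ne_zero (NeZero.ne k)
  rw [← ZMod.val_natCast]
  congr 1
  cases b <;> cases c <;> simp [Nat.cast_sub hk, sub_eq_add_neg]

theorem mgg_true (i : Bool × Bool) (z : ZMod k × ZMod k) :
    mgg k i true (tnum z) = tnum (shear i z) := by
  obtain ⟨a, c⟩ := i
  rw [mgg, if_pos (tnum_lt z), tnum_div, tnum_mod, mgg_val, mgg_val]
  cases a <;> rfl

theorem mgg_false (i : Bool × Bool) (z : ZMod k × ZMod k) :
    mgg k i false (tnum z) = tnum ((shear i).symm z) := by
  obtain ⟨a, c⟩ := i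
  rw [mgg, if_pos (tnum_lt z), tnum_div, tnum_mod, mgg_val, mgg_val]
  cases a <;> rfl

end

theorem mgg_of_le {k n : ℕ} (h : k * k ≤ n) (i : Bool × Bool) (b : Bool) : mgg k i b n = n := by
  rw [mgg, if_neg (by omega)]

theorem mgg_lt {k n : ℕ} (h : n < k * k) (i : Bool × Bool) (b : Bool) : mgg k i b n < k * k := by
  have : NeZero k := ⟨by rintro rfl; omega⟩
  obtain ⟨z, rfl⟩ := exists_tnum h
  cases b
  · rw [mgg_false]; exact tnum_lt _
  · rw [mgg_true]; exact tnum_lt _

theorem mgg_lt' {k n N : ℕ} (hN : k * k ≤ N) (h : n < N) (i : Bool × Bool) (b : Bool) :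
    mgg k i b n < N := by
  by_cases h1 : n < k * k
  · exact (mgg_lt h1 i b).trans_le hN
  · rwa [mgg_of_le (by omega)]

theorem mgg_inv (k n : ℕ) (i : Bool × Bool) (b : Bool) : mgg k i (!b) (mgg k i b n) = n := by
  by_cases h : n < k * k
  · have : NeZero k := ⟨by rintro rfl; omega⟩
    obtain ⟨z, rfl⟩ := exists_tnum h
    cases b
    · rw [mgg_false, Bool.not_false, mgg_true, Equiv.apply_symm_apply]
    · rw [mgg_true, Bool.not_true, mgg_false, Equiv.symm_apply_apply]
  · rw [mgg_of_le (n := n) (by omega), mgg_of_le (by omega)]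

/-- Poincare inequality for the expander on the numbers below `k * k`. -/
theorem poincare (k : ℕ) (f : ℕ → ℝ) :
    ∑ x ∈ range (k * k), ∑ y ∈ range (k * k), (f x - f y) ^ 2 ≤
      3 * ((k : ℝ) * k) * ∑ i, ∑ x ∈ range (k * k), (f x - f (mgg k i true x)) ^ 2 := by
  rcases Nat.eq_zero_or_pos k with rfl | hk
  · simp
  have : NeZero k := ⟨hk.ne'⟩
  simp only [sum_tnum, mgg_true]
  exact poincare_torus (fun z => f (tnum z))

end Pool.Agent.Shared.PCP
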