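import Mathlib

/-!
The Margulis-Gabber-Galil expander: a spectral estimate on `ZMod k × ZMod k`.
-/

noncomputable section

namespace Pool.Agent.Shared.PCP

open Finset Complex

/-- The weights of the comparison argument. -/
def gam (m n : ℕ) : ℝ := if n < m then 5 / 4 else if m < n then 4 / 5 else 1

theorem gam_pos (m n : ℕ) : 0 < gam m n := by unfold gam; split_ifs <;> norm_num
theorem gam_le (m n : ℕ) : gam m n ≤ 5 / 4 := by unfold gam; split_ifs <;> norm_num
theorem gam_mul (m n : ℕ) : gam m n * gam n m = 1 := by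
  unfold gam; split_ifs <;> first | omega | norm_num

theorem two_mul_le_gam (m n : ℕ) (a b : ℝ) : 2 * a * b ≤ gam m n * a ^ 2 + gam n m * b ^ 2 := by
  have h := gam_mul m n
  have h1 := gam_pos m n
  have h2 := gam_pos n m
  have : gam n m * (gam m n * a - b) ^ 2 = gam m n * a ^ 2 + gam n m * b ^ 2 - 2 * a * b := by
    linear_combination (gam m n * a ^ 2 - 2 * a * b) * h
  nlinarith [mul_nonneg h2.le (sq_nonneg (gam m n * a - b))]

theorem gam_int (x y : ℤ) (h : x ≠ 0 ∨ y ≠ 0) :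
    gam y.natAbs (y - 2 * x).natAbs + gam y.natAbs (y + 2 * x).natAbs +
      (gam x.natAbs (x - 2 * y).natAbs + gam x.natAbs (x + 2 * y).natAbs) ≤ 3.65 := by
  unfold gam
  split_ifs <;> first | omega | norm_num

variable {k : ℕ} [NeZero k]

/-- Distance to zero. -/
def da (t : ZMod k) : ℕ := t.valMinAbs.natAbs

theorem gam_da (y t : ℤ) (h : t.natAbs + y.natAbs < k) :
    gam y.natAbs (da (t : ZMod k)) = gam y.natAbs t.natAbs := by
  have h1 := ZMod.valMinAbs_mem_Ioc (t : ZMod k)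
  have h2 : ((t : ZMod k).valMinAbs : ZMod k) = (t : ZMod k) := ZMod.coe_valMinAbs _
  rw [ZMod.intCast_eq_intCast_iff_dvd_sub] at h2
  obtain ⟨c, hc⟩ := h2
  unfold da
  generalize (t : ZMod k).valMinAbs = v at *
  obtain ⟨h3, h4⟩ := h1
  have hk : (0 : ℤ) < k := by omega
  have hc1 : c < 2 := by
    by_contra h5
    have : (k : ℤ) * 2 ≤ k * c := mul_le_mul_of_nonneg_left (by omega) hk.le
    omega
  have hc2 : -2 < c := by
    by_contra h5
    have : (k : ℤ) * c ≤ k * (-2) := mul_le_mul_of_nonneg_left (by omega) hk.le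
    omega
  have : c = -1 ∨ c = 0 ∨ c = 1 := by omega
  unfold gam
  rcases this with rfl | rfl | rfl <;> split_ifs <;> first | rfl | omega

/-- The cosine factor. -/
def cf (t : ZMod k) : ℝ := ‖1 + ZMod.stdAddChar t‖ / 2

theorem cf_nonneg (t : ZMod k) : 0 ≤ cf t := by unfold cf; positivity

theorem cf_sq (t : ZMod k) : 2 * cf t ^ 2 = 1 + Real.cos (2 * Real.pi * da t / k) := by
  have h1 : ZMod.stdAddChar t = exp (((2 * Real.pi * t.valMinAbs / k : ℝ) : ℂ) * I) := by
    conv_lhs => rw [← ZMod.coe_valMinAbs t, ZMod.stdAddChar_coe]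
    congr 1; push_cast; ring
  have h2 : Real.cos (2 * Real.pi * da t / k) = Real.cos (2 * Real.pi * t.valMinAbs / k) := by
    unfold da
    rw [Nat.cast_natAbs, Int.cast_abs]
    rcases abs_cases (t.valMinAbs : ℝ) with h | h <;> rw [h.1]
    rw [← Real.cos_neg]; congr 1; ring
  rw [h2, cf, h1, div_pow, ← normSq_eq_norm_sq, normSq_apply]
  simp only [add_re, one_re, exp_ofReal_mul_I_re, add_im, one_im, exp_ofReal_mul_I_im]
  nlinarith [Real.sin_sq_add_cos_sq (2 * Real.pi * t.valMinAbs / k)]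

theorem cf_le_one (t : ZMod k) : cf t ≤ 1 := by
  have := cf_sq t
  have h2 := Real.cos_le_one (2 * Real.pi * da t / k)
  nlinarith [cf_nonneg t]

theorem cf_add_le (s t : ZMod k) (h : k ≤ 2 * (da s + da t)) : cf s + cf t ≤ 1.46 := by
  have hk : (0 : ℝ) < k := by exact_mod_cast Nat.pos_of_ne_zero (NeZero.ne k)
  have h1 := cf_sq s
  have h2 := cf_sq t
  have h3 : 2 * da t ≤ k := by have := ZMod.natAbs_valMinAbs_le t; unfold da; omega
  have h4 : 2 * da s ≤ k := by have := ZMod.natAbs_valMinAbs_le s; unfold da; omega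
  have h3' : (2 * da t : ℝ) ≤ k := by exact_mod_cast h3
  have h4' : (2 * da s : ℝ) ≤ k := by exact_mod_cast h4
  have h' : (k : ℝ) ≤ 2 * (da s + da t) := by exact_mod_cast h
  have hp := Real.pi_pos
  have h5 : Real.cos (2 * Real.pi * da t / k) ≤ Real.cos (Real.pi - 2 * Real.pi * da s / k) := by
    apply Real.cos_le_cos_of_nonneg_of_le_pi
    · rw [sub_nonneg, div_le_iff₀ hk]; nlinarith
    · rw [div_le_iff₀ hk]; nlinarith
    · rw [sub_le_iff_le_add, ← add_div, le_div_iff₀ hk]; nlinarith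
  rw [Real.cos_pi_sub] at h5
  nlinarith [sq_nonneg (cf s - cf t), cf_nonneg s, cf_nonneg t]

theorem weight_le (w : ZMod k × ZMod k) (hw : w ≠ 0) :
    cf w.1 * (gam (da w.2) (da (w.2 - 2 * w.1)) + gam (da w.2) (da (w.2 + 2 * w.1))) +
      cf w.2 * (gam (da w.1) (da (w.1 - 2 * w.2)) + gam (da w.1) (da (w.1 + 2 * w.2))) ≤ 3.65 := by
  have g1 := gam_pos (da w.2) (da (w.2 - 2 * w.1))
  have g2 := gam_pos (da w.2) (da (w.2 + 2 * w.1))
  have g3 := gam_pos (da w.1) (da (w.1 - 2 * w.2))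
  have g4 := gam_pos (da w.1) (da (w.1 + 2 * w.2))
  by_cases h : k ≤ 2 * (da w.1 + da w.2)
  · have := cf_add_le _ _ h
    have l1 := gam_le (da w.2) (da (w.2 - 2 * w.1))
    have l2 := gam_le (da w.2) (da (w.2 + 2 * w.1))
    have l3 := gam_le (da w.1) (da (w.1 - 2 * w.2))
    have l4 := gam_le (da w.1) (da (w.1 + 2 * w.2))
    nlinarith [cf_nonneg w.1, cf_nonneg w.2]
  · have e1 : ∀ a b : ZMod k, a - 2 * b = ((a.valMinAbs - 2 * b.valMinAbs : ℤ) : ZMod k) := by
      intro a b; push_cast; simp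
    have e2 : ∀ a b : ZMod k, a + 2 * b = ((a.valMinAbs + 2 * b.valMinAbs : ℤ) : ZMod k) := by
      intro a b; push_cast; simp
    have h0 : w.1.valMinAbs ≠ 0 ∨ w.2.valMinAbs ≠ 0 := by
      by_contra h0
      push Not at h0
      exact hw (Prod.ext ((ZMod.valMinAbs_eq_zero _).1 h0.1) ((ZMod.valMinAbs_eq_zero _).1 h0.2))
    have := gam_int _ _ h0
    unfold da at h
    rw [← gam_da (k := k) _ (_ - _) (by omega), ← gam_da (k := k) _ (_ + _) (by omega),
      ← gam_da (k := k) w.1.valMinAbs (_ - _) (by omega),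
      ← gam_da (k := k) w.1.valMinAbs (_ + _) (by omega), ← e1, ← e1, ← e2, ← e2] at this
    change gam (da w.2) _ + gam (da w.2) _ + (gam (da w.1) _ + gam (da w.1) _) ≤ _ at this
    nlinarith [cf_le_one w.1, cf_le_one w.2]

/-- The Fourier transform on the discrete torus. -/
def ft (g : ZMod k × ZMod k → ℝ) (w : ZMod k × ZMod k) : ℂ :=
  ∑ z, g z * ZMod.stdAddChar (w.1 * z.1 + w.2 * z.2)

theorem sum_char (u : ZMod k × ZMod k) :
    ∑ w : ZMod k × ZMod k, ZMod.stdAddChar (w.1 * u.1 + w.2 * u.2) =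
      if u = 0 then ((k : ℂ) * k) else 0 := by
  simp only [Fintype.sum_prod_type, AddChar.map_add_eq_mul, ← mul_sum, ← sum_mul,
    AddChar.sum_mulShift _ (ZMod.isPrimitive_stdAddChar k), ZMod.card, Prod.ext_iff]
  by_cases h1 : u.1 = 0 <;> by_cases h2 : u.2 = 0 <;> simp [h1, h2]

theorem parseval (g h : ZMod k × ZMod k → ℝ) :
    ∑ w, ft g w * ft h (-w) = (k : ℂ) * k * ((∑ z, g z * h z : ℝ) : ℂ) := by
  simp only [ft, sum_mul_sum]
  rw [sum_comm]
  push_cast
  rw [mul_sum]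
  refine sum_congr rfl fun z _ => ?_
  rw [sum_comm]
  have : ∀ y : ZMod k × ZMod k, ∑ w : ZMod k × ZMod k,
      (g z : ℂ) * ZMod.stdAddChar (w.1 * z.1 + w.2 * z.2) *
        (h y * ZMod.stdAddChar ((-w).1 * y.1 + (-w).2 * y.2)) =
      if z = y then (k : ℂ) * k * (g z * h y) else 0 := by
    intro y
    have := sum_char (z - y)
    simp only [sub_eq_zero] at this
    calc _ = (g z * h y : ℂ) * ∑ w : ZMod k × ZMod k,
          ZMod.stdAddChar (w.1 * (z - y).1 + w.2 * (z - y).2) := by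
          rw [mul_sum]
          refine sum_congr rfl fun w _ => ?_
          rw [mul_mul_mul_comm, ← AddChar.map_add_eq_mul]
          congr 2
          simp only [Prod.fst_neg, Prod.snd_neg, Prod.fst_sub, Prod.snd_sub]; ring
      _ = _ := by rw [this]; split_ifs <;> ring
  simp only [this, sum_ite_eq, mem_univ, if_true]

theorem norm_ft_neg (g : ZMod k × ZMod k → ℝ) (w : ZMod k × ZMod k) :
    ‖ft g (-w)‖ = ‖ft g w‖ := by
  rw [← norm_conj (ft g w)]
  congr 1
  simp only [ft, map_sum, map_mul, conj_ofReal, ← AddChar.map_neg_eq_conj]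
  refine sum_congr rfl fun z _ => ?_
  congr 2
  simp only [Prod.fst_neg, Prod.snd_neg]; ring

theorem parseval_norm (g : ZMod k × ZMod k → ℝ) :
    ∑ w, ‖ft g w‖ ^ 2 = (k : ℝ) * k * ∑ z, g z ^ 2 := by
  have h := parseval g g
  have h2 : ∀ w, ft g w * ft g (-w) = ((‖ft g w‖ ^ 2 : ℝ) : ℂ) := by
    intro w
    have : ft g (-w) = (starRingEnd ℂ) (ft g w) := by
      simp only [ft, map_sum, map_mul, conj_ofReal, ← AddChar.map_neg_eq_conj]
      refine sum_congr rfl fun z _ => ?_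
      congr 2
      simp only [Prod.fst_neg, Prod.snd_neg]; ring
    rw [this, mul_conj, normSq_eq_norm_sq]
  simp only [h2] at h
  simp only [sq (g _)]
  exact_mod_cast h

/-- The shear along the first axis. -/
def sh1 (c : ZMod k) : ZMod k × ZMod k ≃ ZMod k × ZMod k where
  toFun z := (z.1 + (2 * z.2 + c), z.2)
  invFun z := (z.1 - (2 * z.2 + c), z.2)
  left_inv z := by simp
  right_inv z := by simp

theorem ft_sh1 (g : ZMod k × ZMod k → ℝ) (c : ZMod k) (w : ZMod k × ZMod k) :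
    ft (fun z => g (sh1 c z)) (-w) =
      ZMod.stdAddChar (w.1 * c) * ft g (-(w.1, w.2 - 2 * w.1)) := by
  simp only [ft, mul_sum]
  rw [← (sh1 c).symm.sum_comp]
  refine sum_congr rfl fun z _ => ?_
  rw [Equiv.apply_symm_apply, mul_left_comm, ← AddChar.map_add_eq_mul]
  congr 2
  simp only [sh1, Equiv.coe_fn_symm_mk, Prod.fst_neg, Prod.snd_neg]; ring

theorem axis_bound (g : ZMod k × ZMod k → ℝ) :
    (k : ℝ) * k * (∑ z, g z * g (sh1 0 z) + ∑ z, g z * g (sh1 1 z)) ≤
      ∑ w : ZMod k × ZMod k, cf w.1 * (gam (da w.2) (da (w.2 - 2 * w.1)) +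
        gam (da w.2) (da (w.2 + 2 * w.1))) * ‖ft g w‖ ^ 2 := by
  have h0 := parseval g (fun z => g (sh1 0 z))
  have h1 := parseval g (fun z => g (sh1 1 z))
  simp only [ft_sh1, mul_zero, AddChar.map_zero_eq_one, mul_one] at h0 h1
  have h2 : (((k : ℝ) * k * (∑ z, g z * g (sh1 0 z) + ∑ z, g z * g (sh1 1 z)) : ℝ) : ℂ) =
      ∑ w : ZMod k × ZMod k, ft g w * ((1 + ZMod.stdAddChar w.1) *
        ft g (-(w.1, w.2 - 2 * w.1))) := by
    rw [ofReal_mul, ofReal_mul, ofReal_add, mul_add, ofReal_natCast, ← h0, ← h1, ← sum_add_distrib]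
    refine sum_congr rfl fun w _ => by ring
  have h3 := (le_abs_self _).trans ((Complex.norm_real _).symm.trans_le
    ((congrArg norm h2).trans_le (norm_sum_le _ _)))
  refine h3.trans ?_
  let P : ZMod k × ZMod k ≃ ZMod k × ZMod k :=
    { toFun := fun w => (w.1, w.2 - 2 * w.1)
      invFun := fun w => (w.1, w.2 + 2 * w.1)
      left_inv := fun w => by simp
      right_inv := fun w => by simp }
  have h4 : ∑ w : ZMod k × ZMod k, cf w.1 * gam (da w.2) (da (w.2 + 2 * w.1)) * ‖ft g w‖ ^ 2 =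
      ∑ w : ZMod k × ZMod k, cf w.1 * gam (da (w.2 - 2 * w.1)) (da w.2) *
        ‖ft g (w.1, w.2 - 2 * w.1)‖ ^ 2 := by
    rw [← P.sum_comp]
    refine sum_congr rfl fun w _ => ?_
    simp [P]
  conv_rhs => simp only [mul_add, add_mul, sum_add_distrib]
  rw [h4, ← sum_add_distrib]
  refine sum_le_sum fun w _ => ?_
  rw [norm_mul, norm_mul, norm_ft_neg]
  have h5 := two_mul_le_gam (da w.2) (da (w.2 - 2 * w.1)) ‖ft g w‖ ‖ft g (w.1, w.2 - 2 * w.1)‖
  have h6 : ‖1 + ZMod.stdAddChar w.1‖ = 2 * cf w.1 := by unfold cf; ring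
  rw [h6]
  nlinarith [mul_le_mul_of_nonneg_left h5 (cf_nonneg w.1)]

theorem ft_swap (g : ZMod k × ZMod k → ℝ) (w : ZMod k × ZMod k) :
    ft (fun z => g z.swap) w.swap = ft g w := by
  simp only [ft]
  rw [← (Equiv.prodComm _ _).sum_comp]
  refine sum_congr rfl fun z _ => ?_
  simp [add_comm]

/-- The spectral estimate. -/
theorem margulis (g : ZMod k × ZMod k → ℝ) (hg : ∑ z, g z = 0) :
    (∑ z, g z * g (sh1 0 z) + ∑ z, g z * g (sh1 1 z)) +
      (∑ z, g z * g (sh1 0 z.swap).swap + ∑ z, g z * g (sh1 1 z.swap).swap) ≤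
        3.65 * ∑ z, g z ^ 2 := by
  have hk : (0 : ℝ) < k := by exact_mod_cast Nat.pos_of_ne_zero (NeZero.ne k)
  have h1 := axis_bound g
  have h2 := axis_bound (fun z => g z.swap)
  rw [← (Equiv.prodComm _ _).sum_comp, ← (Equiv.prodComm _ _).sum_comp (fun z => g z.swap * _),
    ← (Equiv.prodComm _ _).sum_comp (fun w => cf w.1 * _ * _)] at h2
  simp only [Equiv.prodComm_apply, Prod.swap_swap, ft_swap, Prod.fst_swap, Prod.snd_swap] at h2
  refine le_of_mul_le_mul_left ?_ (mul_pos hk hk)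
  rw [mul_add, mul_left_comm, ← parseval_norm, mul_sum]
  refine (add_le_add h1 h2).trans ?_
  rw [← sum_add_distrib]
  refine sum_le_sum fun w _ => ?_
  rw [← add_mul]
  by_cases hw : w = 0
  · have : ft g w = 0 := by
      simp only [ft, hw, Prod.fst_zero, Prod.snd_zero, zero_mul, add_zero,
        AddChar.map_zero_eq_one, mul_one]
      exact_mod_cast hg
    simp [this]
  · exact mul_le_mul_of_nonneg_right (weight_le w hw) (sq_nonneg _)

/-- The four generators. -/
def shear (i : Bool × Bool) : ZMod k × ZMod k ≃ ZMod k × ZMod k :=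
  cond i.1 (sh1 (cond i.2 1 0))
    (((Equiv.prodComm _ _).trans (sh1 (cond i.2 1 0))).trans (Equiv.prodComm _ _))

/-- Poincare inequality on the torus. -/
theorem poincare_torus (f : ZMod k × ZMod k → ℝ) :
    ∑ x, ∑ y, (f x - f y) ^ 2 ≤ 3 * ((k : ℝ) * k) * ∑ i, ∑ x, (f x - f (shear i x)) ^ 2 := by
  have hk : (0 : ℝ) < k := by exact_mod_cast Nat.pos_of_ne_zero (NeZero.ne k)
  set μ : ℝ := (∑ x, f x) / (k * k)
  set g : ZMod k × ZMod k → ℝ := fun x => f x - μ
  have hg : ∑ z, g z = 0 := by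
    simp only [g, sum_sub_distrib, sum_const, card_univ, Fintype.card_prod, ZMod.card,
      nsmul_eq_mul, μ, Nat.cast_mul]
    field_simp; ring
  have e : ∀ x y, f x - f y = g x - g y := fun x y => by simp [g]
  simp only [e]
  have h1 : ∑ x, ∑ y, (g x - g y) ^ 2 = 2 * ((k : ℝ) * k) * ∑ x, g x ^ 2 := by
    simp only [sub_sq, sum_add_distrib, sum_sub_distrib, ← mul_sum, ← sum_mul, hg, sum_const,
      card_univ, Fintype.card_prod, ZMod.card, nsmul_eq_mul, Nat.cast_mul]
    ring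
  have h2 : ∀ i, ∑ x, (g x - g (shear i x)) ^ 2 =
      2 * ∑ x, g x ^ 2 - 2 * ∑ x, g x * g (shear i x) := by
    intro i
    simp only [sub_sq, sum_add_distrib, sum_sub_distrib, mul_assoc, ← mul_sum]
    rw [(shear i).sum_comp (fun x => g x ^ 2)]; ring
  have h3 := margulis g hg
  rw [h1]
  simp only [h2, Fintype.sum_prod_type (α₁ := Bool), Fintype.sum_bool]
  simp only [shear, cond_true, cond_false, Equiv.trans_apply, Equiv.prodComm_apply]
  have h4 : 0 ≤ ∑ x, g x ^ 2 := sum_nonneg fun _ _ => sq_nonneg _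
  nlinarith [mul_pos hk hk]

end Pool.Agent.Shared.PCP
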