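import Mathlib

/-!
Uniform averages and probabilities on finite types.
-/

noncomputable section

namespace Pool.Agent.Shared.PCP

open Finset

/-- The uniform average of a real function on a finite type. -/
def Ex {α : Type} [Fintype α] (f : α → ℝ) : ℝ := (∑ x, f x) / Fintype.card α

open Classical in
/-- The indicator of a proposition. -/
def ind (p : Prop) : ℝ := if p then 1 else 0

/-- The uniform probability of an event. -/
def pr {α : Type} [Fintype α] (p : α → Prop) : ℝ := Ex fun x => ind (p x)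

variable {α β γ : Type} [Fintype α] [Fintype β] [Fintype γ]

theorem ind_pos {p : Prop} (h : p) : ind p = 1 := by simp [ind, h]
theorem ind_neg {p : Prop} (h : ¬ p) : ind p = 0 := by simp [ind, h]
theorem ind_nonneg (p : Prop) : 0 ≤ ind p := by unfold ind; split_ifs <;> norm_num
theorem ind_le_one (p : Prop) : ind p ≤ 1 := by unfold ind; split_ifs <;> norm_num
theorem ind_and (p q : Prop) : ind (p ∧ q) = ind p * ind q := by
  by_cases hp : p <;> by_cases hq : q <;> simp [ind, hp, hq]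
theorem ind_not (p : Prop) : ind (¬ p) = 1 - ind p := by
  by_cases hp : p <;> simp [ind, hp]
theorem ind_mono {p q : Prop} (h : p → q) : ind p ≤ ind q := by
  by_cases hp : p
  · rw [ind_pos hp, ind_pos (h hp)]
  · rw [ind_neg hp]; exact ind_nonneg _
theorem ind_congr {p q : Prop} (h : p ↔ q) : ind p = ind q := by rw [propext h]
theorem ind_union {p q r : Prop} (h : p → q ∨ r) : ind p ≤ ind q + ind r := by
  by_cases hp : p
  · rcases h hp with h | h
    · rw [ind_pos hp, ind_pos h]; linarith [ind_nonneg r]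
    · rw [ind_pos hp, ind_pos h]; linarith [ind_nonneg q]
  · rw [ind_neg hp]; linarith [ind_nonneg q, ind_nonneg r]
theorem ind_sq (p : Prop) : ind p ^ 2 = ind p := by
  by_cases hp : p <;> simp [ind, hp]
theorem ind_eq_ite (p : Prop) [Decidable p] : ind p = if p then 1 else 0 := by
  by_cases hp : p <;> simp [ind, hp]
theorem sum_ind_eq [DecidableEq α] (a : α) (f : α → ℝ) : ∑ x, ind (a = x) * f x = f a := by
  simp [ind_eq_ite]
theorem sum_ind_eq_one (a : α) : ∑ x, ind (a = x) = 1 := by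
  classical simp [ind_eq_ite]

theorem Ex_congr {f g : α → ℝ} (h : ∀ x, f x = g x) : Ex f = Ex g := by
  rw [funext h]
theorem Ex_add (f g : α → ℝ) : Ex (fun x => f x + g x) = Ex f + Ex g := by
  simp only [Ex, sum_add_distrib, add_div]
theorem Ex_sub (f g : α → ℝ) : Ex (fun x => f x - g x) = Ex f - Ex g := by
  simp only [Ex, sum_sub_distrib, sub_div]
theorem Ex_neg (f : α → ℝ) : Ex (fun x => - f x) = - Ex f := by
  simp only [Ex, sum_neg_distrib, neg_div]
theorem Ex_mul_left (c : ℝ) (f : α → ℝ) : Ex (fun x => c * f x) = c * Ex f := by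
  simp only [Ex, ← mul_sum, mul_div_assoc]
theorem Ex_mul_right (f : α → ℝ) (c : ℝ) : Ex (fun x => f x * c) = Ex f * c := by
  simp only [Ex, ← sum_mul]; ring
theorem Ex_div (f : α → ℝ) (c : ℝ) : Ex (fun x => f x / c) = Ex f / c := by
  simp only [div_eq_mul_inv, Ex_mul_right]
theorem card_pos_real [Nonempty α] : (0 : ℝ) < Fintype.card α := by
  exact_mod_cast Fintype.card_pos
theorem Ex_const [Nonempty α] (c : ℝ) : Ex (fun _ : α => c) = c := by
  have := card_pos_real (α := α)
  simp only [Ex, sum_const, card_univ, nsmul_eq_mul]; field_simp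
theorem Ex_zero : Ex (fun _ : α => (0 : ℝ)) = 0 := by simp [Ex]
theorem Ex_mono {f g : α → ℝ} (h : ∀ x, f x ≤ g x) : Ex f ≤ Ex g :=
  div_le_div_of_nonneg_right (sum_le_sum fun x _ => h x) (Nat.cast_nonneg _)
theorem Ex_nonneg {f : α → ℝ} (h : ∀ x, 0 ≤ f x) : 0 ≤ Ex f :=
  div_nonneg (sum_nonneg fun x _ => h x) (Nat.cast_nonneg _)
theorem Ex_le_const {f : α → ℝ} {c : ℝ} (hc : 0 ≤ c) (h : ∀ x, f x ≤ c) : Ex f ≤ c := by
  rcases isEmpty_or_nonempty α with h0 | h0
  · simpa [Ex] using hc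
  · exact (Ex_mono h).trans_eq (Ex_const c)
theorem const_le_Ex [Nonempty α] {f : α → ℝ} {c : ℝ} (h : ∀ x, c ≤ f x) : c ≤ Ex f :=
  (Ex_const c).symm.trans_le (Ex_mono h)
theorem Ex_sum {ι : Type} (s : Finset ι) (f : ι → α → ℝ) :
    Ex (fun x => ∑ i ∈ s, f i x) = ∑ i ∈ s, Ex (f i) := by
  simp only [Ex, ← sum_div]; rw [sum_comm]
theorem Ex_comm (f : α → β → ℝ) :
    Ex (fun x => Ex fun y => f x y) = Ex fun y => Ex fun x => f x y := by
  simp only [Ex, ← sum_div]; rw [sum_comm]; ring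
theorem Ex_prod (f : α × β → ℝ) : Ex f = Ex fun x => Ex fun y => f (x, y) := by
  simp only [Ex, ← sum_div, Fintype.sum_prod_type, Fintype.card_prod, Nat.cast_mul]; ring
theorem Ex_prod' (f : α × β → ℝ) : Ex f = Ex fun y => Ex fun x => f (x, y) := by
  rw [Ex_prod, Ex_comm]
theorem Ex_equiv (e : α ≃ β) (f : β → ℝ) : Ex (fun x => f (e x)) = Ex f := by
  simp only [Ex, Fintype.card_congr e, e.sum_comp f]
theorem Ex_bij {e : α → β} (he : Function.Bijective e) (f : β → ℝ) :
    Ex (fun x => f (e x)) = Ex f := Ex_equiv (Equiv.ofBijective e he) f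
theorem Ex_mul_Ex (f : α → ℝ) (g : β → ℝ) :
    Ex (fun x => Ex fun y => f x * g y) = Ex f * Ex g := by
  simp only [Ex_mul_left, Ex_mul_right]
theorem Ex_fst [Nonempty β] (f : α → ℝ) : Ex (fun z : α × β => f z.1) = Ex f := by
  rw [Ex_prod]; simp only [Ex_const]
theorem Ex_snd [Nonempty α] (f : β → ℝ) : Ex (fun z : α × β => f z.2) = Ex f := by
  rw [Ex_prod']; simp only [Ex_const]

/-- Cauchy-Schwarz. -/
theorem Ex_cs (f g : α → ℝ) :
    Ex (fun x => f x * g x) ^ 2 ≤ Ex (fun x => f x ^ 2) * Ex (fun x => g x ^ 2) := by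
  simp only [Ex, div_pow, div_mul_div_comm, ← sq]
  exact div_le_div_of_nonneg_right (sum_mul_sq_le_sq_mul_sq _ _ _) (by positivity)
theorem Ex_cs_sqrt (f g : α → ℝ) :
    |Ex (fun x => f x * g x)| ≤ √(Ex fun x => f x ^ 2) * √(Ex fun x => g x ^ 2) := by
  rw [← Real.sqrt_mul (Ex_nonneg fun _ => sq_nonneg _)]
  exact Real.abs_le_sqrt (Ex_cs f g)
/-- Jensen for the square. -/
theorem Ex_sq_le (f : α → ℝ) : Ex f ^ 2 ≤ Ex (fun x => f x ^ 2) := by
  have := Ex_cs f (fun _ => 1)
  simp only [mul_one, one_pow] at this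
  exact this.trans (mul_le_of_le_one_right (Ex_nonneg fun _ => sq_nonneg _)
    (Ex_le_const zero_le_one fun _ => le_rfl))
theorem abs_Ex_le (f : α → ℝ) : |Ex f| ≤ Ex fun x => |f x| := by
  simp only [Ex, abs_div, Nat.abs_cast]
  exact div_le_div_of_nonneg_right (abs_sum_le_sum_abs _ _) (Nat.cast_nonneg _)
theorem Ex_sqrt_le {f : α → ℝ} (hf : ∀ x, 0 ≤ f x) : Ex (fun x => √(f x)) ≤ √(Ex f) := by
  refine Real.le_sqrt_of_sq_le ((Ex_sq_le _).trans_eq (Ex_congr fun x => Real.sq_sqrt (hf x)))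
theorem exists_Ex_le [Nonempty α] (f : α → ℝ) : ∃ x, Ex f ≤ f x := by
  obtain ⟨x, -, hx⟩ := exists_max_image univ f univ_nonempty
  exact ⟨x, (Ex_mono fun y => hx y (mem_univ _)).trans_eq (Ex_const _)⟩
theorem exists_le_Ex [Nonempty α] (f : α → ℝ) : ∃ x, f x ≤ Ex f := by
  obtain ⟨x, -, hx⟩ := exists_min_image univ f univ_nonempty
  exact ⟨x, const_le_Ex fun y => hx y (mem_univ _)⟩

theorem Ex_add_right [AddGroup α] (f : α → ℝ) (a : α) : Ex (fun x => f (x + a)) = Ex f :=
  Ex_equiv (Equiv.addRight a) f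
theorem Ex_add_left [AddGroup α] (f : α → ℝ) (a : α) : Ex (fun x => f (a + x)) = Ex f :=
  Ex_equiv (Equiv.addLeft a) f

/-- Resampling one coordinate. -/
theorem Ex_update {ι : Type} [Fintype ι] [DecidableEq ι] [Nonempty β] (i : ι)
    (f : (ι → β) → ℝ) : Ex (fun x => Ex fun a => f (Function.update x i a)) = Ex f := by
  let e : (ι → β) × β ≃ (ι → β) × β :=
    { toFun := fun z => (Function.update z.1 i z.2, z.1 i)
      invFun := fun z => (Function.update z.1 i z.2, z.1 i)
      left_inv := fun z => by simp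
      right_inv := fun z => by simp }
  rw [← Ex_prod (fun z : (ι → β) × β => f (Function.update z.1 i z.2))]
  exact (Ex_equiv e (fun z => f z.1)).trans (Ex_fst f)

theorem Ex_pi_prod {ι : Type} [Fintype ι] [DecidableEq ι] (f : ι → β → ℝ) :
    Ex (fun x : ι → β => ∏ i, f i (x i)) = ∏ i, Ex (f i) := by
  simp only [Ex, prod_div_distrib, prod_const, card_univ, Fintype.card_fun, Nat.cast_pow]
  rw [prod_univ_sum, Fintype.piFinset_univ]

theorem Ex_apply {ι : Type} [Fintype ι] [DecidableEq ι] [Nonempty β] (i : ι) (f : β → ℝ) :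
    Ex (fun x : ι → β => f (x i)) = Ex f := by
  rw [← Ex_update i]
  simp only [Function.update_self]
  exact Ex_const _

theorem pr_nonneg (p : α → Prop) : 0 ≤ pr p := Ex_nonneg fun _ => ind_nonneg _
theorem pr_le_one (p : α → Prop) : pr p ≤ 1 := Ex_le_const zero_le_one fun _ => ind_le_one _
theorem pr_mono {p q : α → Prop} (h : ∀ x, p x → q x) : pr p ≤ pr q :=
  Ex_mono fun x => ind_mono (h x)
theorem pr_congr {p q : α → Prop} (h : ∀ x, p x ↔ q x) : pr p = pr q :=
  Ex_congr fun x => ind_congr (h x)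
theorem pr_union {p q r : α → Prop} (h : ∀ x, p x → q x ∨ r x) : pr p ≤ pr q + pr r :=
  (Ex_mono fun x => ind_union (h x)).trans_eq (Ex_add _ _)
theorem pr_not [Nonempty α] (p : α → Prop) : pr (fun x => ¬ p x) = 1 - pr p := by
  simp only [pr, ind_not, Ex_sub, Ex_const]
theorem pr_true [Nonempty α] {p : α → Prop} (h : ∀ x, p x) : pr p = 1 := by
  simp only [pr, ind_pos (h _), Ex_const]
theorem pr_false {p : α → Prop} (h : ∀ x, ¬ p x) : pr p = 0 := by
  simp only [pr, ind_neg (h _), Ex_zero]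
theorem exists_not_of_pr_lt [Nonempty α] {p : α → Prop} (h : pr p < 1) : ∃ x, ¬ p x := by
  by_contra h1
  push Not at h1
  rw [pr_true h1] at h
  exact lt_irrefl _ h
theorem pr_prod (p : α × β → Prop) : pr p = Ex fun x => pr fun y => p (x, y) := Ex_prod _
theorem pr_eq_card (p : α → Prop) [DecidablePred p] :
    pr p = ((univ.filter p).card : ℝ) / Fintype.card α := by
  simp only [pr, Ex, ind_eq_ite, sum_boole]

end Pool.Agent.Shared.PCP
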