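import Pool.Agent.Shared.PCP.Prob

/-!
Random words, walks in graphs given by permutations, and mixing.
-/

noncomputable section

namespace Pool.Agent.Shared.PCP

open Finset

/-- The end of the walk from `v` along the word `l`. -/
def walk {V D : Type} (S : D → V → V) (v : V) (l : List D) : V := l.foldl (fun v i => S i v) v

/-- The reversed word. -/
def rev {D : Type} (ι : D → D) (l : List D) : List D := (l.map ι).reverse

section
variable {V D : Type}

@[simp] theorem walk_nil (S : D → V → V) (v : V) : walk S v [] = v := rfl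
@[simp] theorem walk_cons (S : D → V → V) (v : V) (i : D) (l : List D) :
    walk S v (i :: l) = walk S (S i v) l := rfl
theorem walk_append (S : D → V → V) (v : V) (l m : List D) :
    walk S v (l ++ m) = walk S (walk S v l) m := List.foldl_append
@[simp] theorem rev_nil (ι : D → D) : rev ι [] = [] := rfl
theorem rev_cons (ι : D → D) (i : D) (l : List D) : rev ι (i :: l) = rev ι l ++ [ι i] := by
  simp [rev]
@[simp] theorem length_rev (ι : D → D) (l : List D) : (rev ι l).length = l.length := by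
  simp [rev]
theorem rev_rev {ι : D → D} (h : ∀ i, ι (ι i) = i) (l : List D) : rev ι (rev ι l) = l := by
  simp [rev, Function.comp_def, h]
theorem walk_rev {S : D → V → V} {ι : D → D} (h : ∀ i v, S (ι i) (S i v) = v) (v : V)
    (l : List D) : walk S (walk S v l) (rev ι l) = v := by
  induction l generalizing v with
  | nil => rfl
  | cons i l ih => rw [walk_cons, rev_cons, walk_append, ih]; exact h i v

variable [Fintype D]

/-- The average over words of length `n`. -/
def Ew (n : ℕ) (g : List D → ℝ) : ℝ := Ex fun w : Fin n → D => g (List.ofFn w)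

theorem Ew_zero (g : List D → ℝ) : Ew 0 g = g [] := by
  simp only [Ew, List.ofFn_zero]; exact Ex_const _

theorem Ew_succ (n : ℕ) (g : List D → ℝ) :
    Ew (n + 1) g = Ex fun i => Ew n fun l => g (i :: l) := by
  unfold Ew
  rw [← Ex_equiv (Fin.consEquiv fun _ => D), Ex_prod]
  refine Ex_congr fun i => Ex_congr fun w => ?_
  simp [List.ofFn_succ, Fin.consEquiv]

theorem Ew_congr {n : ℕ} {f g : List D → ℝ} (h : ∀ l, l.length = n → f l = g l) :
    Ew n f = Ew n g := Ex_congr fun _ => h _ List.length_ofFn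

theorem Ew_mono {n : ℕ} {f g : List D → ℝ} (h : ∀ l, l.length = n → f l ≤ g l) :
    Ew n f ≤ Ew n g := Ex_mono fun _ => h _ List.length_ofFn

theorem Ew_append (p q : ℕ) (g : List D → ℝ) :
    Ew (p + q) g = Ew p fun l => Ew q fun m => g (l ++ m) := by
  induction p generalizing g with
  | zero => simp [Ew_zero]
  | succ p ih => rw [Nat.add_right_comm, Ew_succ, Ew_succ]; simp only [ih, List.cons_append]

theorem Ew_comm {α : Type} [Fintype α] (n : ℕ) (g : α → List D → ℝ) :
    Ex (fun a => Ew n (g a)) = Ew n fun l => Ex fun a => g a l := Ex_comm _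

theorem Ew_const [Nonempty D] (n : ℕ) (c : ℝ) : Ew n (fun _ : List D => c) = c := Ex_const c
theorem Ew_mul_left (n : ℕ) (c : ℝ) (g : List D → ℝ) :
    Ew n (fun l => c * g l) = c * Ew n g := Ex_mul_left _ _
theorem Ew_mul_right (n : ℕ) (c : ℝ) (g : List D → ℝ) :
    Ew n (fun l => g l * c) = Ew n g * c := Ex_mul_right _ _
theorem Ew_nonneg {n : ℕ} {g : List D → ℝ} (h : ∀ l, 0 ≤ g l) : 0 ≤ Ew n g :=
  Ex_nonneg fun _ => h _
theorem Ew_sum {κ : Type} (n : ℕ) (s : Finset κ) (f : κ → List D → ℝ) :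
    Ew n (fun l => ∑ i ∈ s, f i l) = ∑ i ∈ s, Ew n (f i) := Ex_sum s _

theorem Ew_rev {ι : D → D} (h : ∀ i, ι (ι i) = i) (n : ℕ) (g : List D → ℝ) :
    Ew n (fun l => g (rev ι l)) = Ew n g := by
  induction n generalizing g with
  | zero => simp [Ew_zero]
  | succ n ih =>
    rw [Ew_succ, Ew_append]
    simp only [rev_cons]
    have e : ∀ i, Ew n (fun l => g (rev ι l ++ [ι i])) = Ew n (fun l => g (l ++ [ι i])) :=
      fun i => ih (fun l => g (l ++ [ι i]))
    simp only [e]
    rw [Ex_bij (Function.Involutive.bijective h) (fun i => Ew n fun l => g (l ++ [i])), Ew_comm]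
    refine Ew_congr fun l _ => ?_
    rw [Ew_succ]; simp only [Ew_zero]

variable [Fintype V]

/-- The averaging operator of the graph. -/
def Aop (S : D → V → V) (f : V → ℝ) (v : V) : ℝ := Ex fun i => f (S i v)

omit [Fintype V] in
theorem Ew_walk (S : D → V → V) (n : ℕ) (f : V → ℝ) (v : V) :
    Ew n (fun l => f (walk S v l)) = (Aop S)^[n] f v := by
  induction n generalizing v with
  | zero => simp [Ew_zero]
  | succ n ih => rw [Ew_succ, Function.iterate_succ_apply']; simp only [walk_cons, ih]; rfl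

variable {S : D → V → V} {ι : D → D}

omit [Fintype D] [Fintype V] in
theorem bij_S (hι : ∀ i, ι (ι i) = i) (h : ∀ i v, S (ι i) (S i v) = v) (i : D) :
    Function.Bijective (S i) :=
  Function.bijective_iff_has_inverse.2 ⟨S (ι i), h i, fun v => by
    have := h (ι i) v; rwa [hι] at this⟩

omit [Fintype D] [Fintype V] in
theorem bij_walk (hι : ∀ i, ι (ι i) = i) (h : ∀ i v, S (ι i) (S i v) = v) (l : List D) :
    Function.Bijective (fun v => walk S v l) :=
  Function.bijective_iff_has_inverse.2 ⟨fun v => walk S v (rev ι l), fun v => walk_rev h v l,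
    fun v => by have := walk_rev h v (rev ι l); rwa [rev_rev hι] at this⟩

theorem Ex_Aop [Nonempty D] (hS : ∀ i, Function.Bijective (S i)) (f : V → ℝ) :
    Ex (Aop S f) = Ex f := by
  unfold Aop
  rw [Ex_comm]
  simp only [Ex_bij (hS _), Ex_const]

/-- The spectral hypothesis. -/
def Spec (S : D → V → V) (lam : ℝ) : Prop :=
  ∀ f : V → ℝ, Ex f = 0 → Ex (fun v => Aop S f v ^ 2) ≤ lam ^ 2 * Ex fun v => f v ^ 2

theorem iter_spec [Nonempty D] (hS : ∀ i, Function.Bijective (S i)) {lam : ℝ} (h : Spec S lam)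
    (n : ℕ) (f : V → ℝ) (hf : Ex f = 0) : Ex ((Aop S)^[n] f) = 0 ∧
      Ex (fun v => (Aop S)^[n] f v ^ 2) ≤ (lam ^ n) ^ 2 * Ex fun v => f v ^ 2 := by
  induction n with
  | zero => simpa using hf
  | succ n ih =>
    rw [Function.iterate_succ_apply']
    refine ⟨by rw [Ex_Aop hS, ih.1], (h _ ih.1).trans ?_⟩
    refine (mul_le_mul_of_nonneg_left ih.2 (sq_nonneg _)).trans_eq (by ring)

theorem var_le [Nonempty V] {f : V → ℝ} (h0 : ∀ v, 0 ≤ f v) (h1 : ∀ v, f v ≤ 1) :
    Ex (fun v => (f v - Ex f) ^ 2) ≤ Ex f := by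
  have : Ex (fun v => (f v - Ex f) ^ 2) = Ex (fun v => f v ^ 2) - Ex f ^ 2 := by
    simp only [sub_sq, Ex_add, Ex_sub, Ex_mul_right, Ex_mul_left, Ex_const]; ring
  rw [this]
  have h2 : Ex (fun v => f v ^ 2) ≤ Ex f := Ex_mono fun v => by nlinarith [h0 v, h1 v]
  nlinarith [sq_nonneg (Ex f)]

/-- The mixing lemma. -/
theorem mixing [Nonempty D] [Nonempty V] (hS : ∀ i, Function.Bijective (S i)) {lam : ℝ}
    (hl : 0 ≤ lam) (h : Spec S lam) (n : ℕ) {f g : V → ℝ} {δ : ℝ} (f0 : ∀ v, 0 ≤ f v)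
    (f1 : ∀ v, f v ≤ 1) (g0 : ∀ v, 0 ≤ g v) (g1 : ∀ v, g v ≤ 1) (hf : Ex f = δ) (hg : Ex g = δ) :
    Ex (fun v => g v * (Aop S)^[n] f v) ≤ δ ^ 2 + lam ^ n * δ := by
  have hδ : 0 ≤ δ := hf ▸ Ex_nonneg f0
  have e : ∀ v, (Aop S)^[n] f v = (Aop S)^[n] (fun v => f v - δ) v + δ := by
    intro v
    rw [← Ew_walk, ← Ew_walk]
    unfold Ew
    rw [Ex_sub, Ex_const]; ring
  obtain ⟨h1, h2⟩ := iter_spec hS h n (fun v => f v - δ) (by rw [Ex_sub, Ex_const, hf, sub_self])
  set F := (Aop S)^[n] (fun v => f v - δ)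
  have e2 : Ex (fun v => g v * (Aop S)^[n] f v) = Ex (fun v => (g v - δ) * F v) + δ ^ 2 := by
    simp only [e, mul_add, sub_mul, Ex_add, Ex_sub, Ex_mul_left, Ex_mul_right, hg]
    rw [h1]; ring
  have v1 := var_le f0 f1
  have v2 := var_le g0 g1
  rw [hf] at v1
  rw [hg] at v2
  have h3 := Ex_cs (fun v => g v - δ) F
  have h4 : Ex (fun v => (g v - δ) * F v) ^ 2 ≤ (lam ^ n * δ) ^ 2 := by
    refine h3.trans ((mul_le_mul v2 (h2.trans (mul_le_mul_of_nonneg_left v1 (sq_nonneg _)))
      (Ex_nonneg fun _ => sq_nonneg _) hδ).trans_eq (by ring))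
  have := abs_le_of_sq_le_sq' h4 (by positivity)
  rw [e2]; linarith [this.2]

theorem sum_pow_dist {lam : ℝ} (h0 : 0 ≤ lam) (h1 : lam < 1) (p R : ℕ) :
    ∑ q ∈ range R, lam ^ Nat.dist p q ≤ 2 / (1 - lam) := by
  have key : ∀ (s : Finset ℕ) (φ : ℕ → ℕ), Set.InjOn φ s → ∑ q ∈ s, lam ^ φ q ≤ (1 - lam)⁻¹ := by
    intro s φ hφ
    rw [← sum_image (f := fun j => lam ^ j) hφ, ← tsum_geometric_of_lt_one h0 h1]
    exact (summable_geometric_of_lt_one h0 h1).sum_le_tsum _ fun _ _ => by positivity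
  rw [← sum_filter_add_sum_filter_not _ (fun q => q ≤ p)]
  have a := key ((range R).filter fun q => q ≤ p) (Nat.dist p) (fun x hx y hy h => by
    simp only [coe_filter, Set.mem_ofPred_eq] at hx hy; unfold Nat.dist at h; omega)
  have b := key ((range R).filter fun q => ¬ q ≤ p) (Nat.dist p) (fun x hx y hy h => by
    simp only [coe_filter, Set.mem_ofPred_eq] at hx hy; unfold Nat.dist at h; omega)
  rw [div_eq_mul_inv]; linarith

end

end Pool.Agent.Shared.PCP
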