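import Pool.Agent.Shared.PCP.Expander
import Pool.Agent.Shared.PCP.Walk
import Pool.Agent.Shared.PCP.Compose

/-!
From a list of ten-variable constraints to a regular expanding constraint graph.
-/

noncomputable section

namespace Pool.Agent.Shared.PCP

open Finset

/-- An instance: a list of tuples of ten variables, each carrying the predicate `P0`. -/
abbrev Inst := List (Fin 10 → ℕ)

/-- The number of violated constraints. -/
def viol (φ : Inst) (τ : ℕ → ZMod 2) : ℝ :=
  ∑ e ∈ range φ.length, ind (¬ P0 fun κ => τ (φ.getD e (fun _ => 0) κ))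

/-- Satisfiability. -/
def ISat (φ : Inst) : Prop := ∃ τ : ℕ → ZMod 2, ∀ c ∈ φ, P0 fun κ => τ (c κ)

/-- The variable at an occurrence. -/
def vr (φ : Inst) (o : ℕ) : ℕ := φ.getD (o / 10) (fun _ => 0) (Fin.ofNat 10 o)

/-- The occurrences of a variable. -/
def occs (φ : Inst) (x : ℕ) : List ℕ := (List.range (10 * φ.length)).filter fun o => vr φ o == x

/-- The vertex with a given number in the cloud of a variable. -/
def dcd (φ : Inst) (x j : ℕ) : ℕ :=
  j / (occs φ x).length * (10 * φ.length) + (occs φ x).getD (j % (occs φ x).length) 0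

/-- The number of a vertex in its cloud. -/
def ecd (φ : Inst) (x v : ℕ) : ℕ :=
  v / (10 * φ.length) * (occs φ x).length + (occs φ x).idxOf (v % (10 * φ.length))

/-- The expander generators inside the clouds. -/
def cloudS (φ : Inst) (i : Bool × Bool) (b : Bool) (v : ℕ) : ℕ :=
  if v < 4 * (10 * φ.length) then
    dcd φ (vr φ (v % (10 * φ.length)))
      (mgg (Nat.sqrt (occs φ (vr φ (v % (10 * φ.length)))).length + 1) i b
        (ecd φ (vr φ (v % (10 * φ.length))) v))
  else v

/-- The cyclic shift among the ten occurrences of a constraint. -/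
def cyc (φ : Inst) (b : Bool) (v : ℕ) : ℕ :=
  if v < 4 * (10 * φ.length) then v / 10 * 10 + (v + cond b 1 9) % 10 else v

/-- The side length of the global expander. -/
def kk (φ : Inst) : ℕ := Nat.sqrt (4 * (10 * φ.length)) + 1

/-- The number of vertices. -/
def NN (φ : Inst) : ℕ := kk φ * kk φ

/-- The generators: kind, direction, laziness. -/
abbrev DD := (Option (Bool × Bool × Bool) × Bool) × Bool

/-- The alphabet. -/
abbrev AA := Fin 5 → ZMod 2

/-- The non-lazy generators. -/
def S0 (φ : Inst) (d : Option (Bool × Bool × Bool) × Bool) (v : ℕ) : ℕ :=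
  d.1.elim (cyc φ d.2 v) fun g => cond g.1 (cloudS φ g.2 d.2 v) (mgg (kk φ) g.2 d.2 v)

/-- The generators of the graph. -/
def SS (φ : Inst) (d : DD) (v : ℕ) : ℕ := cond d.2 v (S0 φ d.1 v)

/-- The inverse generator. -/
def iD (d : DD) : DD := ((d.1.1, !d.1.2), d.2)

/-- The shape of the constraints. -/
def CC0 (d : DD) (κ κ' : Fin 10) (β β' : AA) : Prop :=
  d.2 = false → d.1.1.elim (β = β') fun g => g.1 = true → sol β κ = sol β' κ'

/-- The constraint on an edge. -/
def CC (φ : Inst) (v : ℕ) (d : DD) : AA → AA → Prop :=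
  CC0 d (Fin.ofNat 10 v) (Fin.ofNat 10 (SS φ d v))

theorem iD_iD (d : DD) : iD (iD d) = d := by simp [iD]

theorem CC0_sat (d : DD) (κ κ' : Fin 10) : ∃ z : AA × AA, CC0 d κ κ' z.1 z.2 := by
  obtain ⟨β, h⟩ := sol_surj κ 0
  obtain ⟨β', h'⟩ := sol_surj κ' 0
  obtain ⟨⟨_ | g, b⟩, c⟩ := d
  · exact ⟨(β, β), fun _ => rfl⟩
  · exact ⟨(β, β'), fun _ _ => h.trans h'.symm⟩

variable {φ : Inst}

theorem mem_occs {x o : ℕ} : o ∈ occs φ x ↔ o < 10 * φ.length ∧ vr φ o = x := by simp [occs]

theorem nodup_occs (x : ℕ) : (occs φ x).Nodup := List.nodup_range.filter _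

theorem sq_le_four {c : ℕ} (h : 0 < c) : (Nat.sqrt c + 1) * (Nat.sqrt c + 1) ≤ 4 * c := by
  have h1 := Nat.sqrt_le c
  have h2 : 0 < Nat.sqrt c := Nat.sqrt_pos.2 h
  nlinarith

theorem dcd_spec {x j : ℕ} (hj : j < 4 * (occs φ x).length) :
    dcd φ x j < 4 * (10 * φ.length) ∧ vr φ (dcd φ x j % (10 * φ.length)) = x ∧
      ecd φ x (dcd φ x j) = j := by
  have hc : 0 < (occs φ x).length := by omega
  have h1 : j % (occs φ x).length < (occs φ x).length := Nat.mod_lt _ hc
  have h2 : (occs φ x).getD (j % (occs φ x).length) 0 = (occs φ x)[j % (occs φ x).length] := by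
    simp [h1]
  have h3 := mem_occs.1 (List.getElem_mem h1)
  have h4 : j / (occs φ x).length < 4 := (Nat.div_lt_iff_lt_mul hc).2 hj
  have h5 : dcd φ x j % (10 * φ.length) = (occs φ x)[j % (occs φ x).length] := by
    rw [dcd, h2, add_comm, Nat.add_mul_mod_self_right, Nat.mod_eq_of_lt h3.1]
  have h6 : dcd φ x j / (10 * φ.length) = j / (occs φ x).length := by
    rw [dcd, h2, add_comm, Nat.add_mul_div_right _ _ (by omega), Nat.div_eq_of_lt h3.1, zero_add]
  refine ⟨?_, by rw [h5, h3.2], ?_⟩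
  · rw [dcd, h2]; nlinarith [h3.1]
  · rw [ecd, h5, h6, (nodup_occs x).idxOf_getElem, Nat.div_add_mod']

theorem ecd_spec {v : ℕ} (hv : v < 4 * (10 * φ.length)) :
    ecd φ (vr φ (v % (10 * φ.length))) v < 4 * (occs φ (vr φ (v % (10 * φ.length)))).length ∧
      dcd φ (vr φ (v % (10 * φ.length))) (ecd φ (vr φ (v % (10 * φ.length))) v) = v := by
  set x := vr φ (v % (10 * φ.length))
  have hM : 0 < 10 * φ.length := by omega
  have h1 : v % (10 * φ.length) ∈ occs φ x := mem_occs.2 ⟨Nat.mod_lt _ hM, rfl⟩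
  have h2 := List.idxOf_lt_length_of_mem h1
  have h4 : v / (10 * φ.length) < 4 := (Nat.div_lt_iff_lt_mul hM).2 hv
  refine ⟨by unfold ecd; nlinarith, ?_⟩
  have h5 : ecd φ x v % (occs φ x).length = (occs φ x).idxOf (v % (10 * φ.length)) := by
    rw [ecd, add_comm, Nat.add_mul_mod_self_right, Nat.mod_eq_of_lt h2]
  have h6 : ecd φ x v / (occs φ x).length = v / (10 * φ.length) := by
    rw [ecd, add_comm, Nat.add_mul_div_right _ _ (by omega), Nat.div_eq_of_lt h2, zero_add]
  rw [dcd, h5, h6, List.getD_eq_getElem _ _ h2, List.getElem_idxOf, Nat.div_add_mod']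

theorem cloudS_dcd {x j : ℕ} (hj : j < 4 * (occs φ x).length) (i : Bool × Bool) (b : Bool) :
    cloudS φ i b (dcd φ x j) = dcd φ x (mgg (Nat.sqrt (occs φ x).length + 1) i b j) := by
  obtain ⟨h1, h2, h3⟩ := dcd_spec hj
  rw [cloudS, if_pos h1, h2, h3]

theorem cloudS_spec {v : ℕ} (hv : v < 4 * (10 * φ.length)) (i : Bool × Bool) (b : Bool) :
    cloudS φ i b v < 4 * (10 * φ.length) ∧
      vr φ (cloudS φ i b v % (10 * φ.length)) = vr φ (v % (10 * φ.length)) ∧
      cloudS φ i (!b) (cloudS φ i b v) = v := by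
  obtain ⟨h1, h2⟩ := ecd_spec hv
  have h3 := mgg_lt' (sq_le_four (by omega)) h1 i b
  obtain ⟨h4, h5, -⟩ := dcd_spec h3
  rw [cloudS, if_pos hv]
  exact ⟨h4, h5, by rw [cloudS_dcd h3, mgg_inv, h2]⟩

theorem lt_NN (φ : Inst) : 4 * (10 * φ.length) < NN φ := Nat.lt_succ_sqrt _

theorem NN_le (h : 0 < φ.length) : NN φ ≤ 160 * φ.length :=
  (sq_le_four (by omega)).trans_eq (by ring)

theorem SS_lt {v : ℕ} (hv : v < NN φ) (d : DD) : SS φ d v < NN φ := by
  have := lt_NN φ
  obtain ⟨⟨_ | ⟨_ | _, i⟩, b⟩, _ | _⟩ := d <;> try exact hv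
  · change cyc φ b v < _
    unfold cyc; split_ifs <;> omega
  · exact mgg_lt hv i b
  · change cloudS φ i b v < _
    by_cases h : v < 4 * (10 * φ.length)
    · exact (cloudS_spec h i b).1.trans this
    · rwa [cloudS, if_neg h]

theorem SS_inv (d : DD) (v : ℕ) : SS φ (iD d) (SS φ d v) = v := by
  obtain ⟨⟨_ | ⟨_ | _, i⟩, b⟩, _ | _⟩ := d <;> try rfl
  · change cyc φ (!b) (cyc φ b v) = v
    unfold cyc
    cases b <;> simp only [cond_true, cond_false, Bool.not_true, Bool.not_false] <;>
      split_ifs <;> omega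
  · exact mgg_inv _ _ _ _
  · change cloudS φ i (!b) (cloudS φ i b v) = v
    by_cases h : v < 4 * (10 * φ.length)
    · exact (cloudS_spec h i b).2.2
    · rw [cloudS, cloudS, if_neg h, if_neg h]

/-- The graph on `Fin (NN φ)`. -/
def SF (φ : Inst) (d : DD) (v : Fin (NN φ)) : Fin (NN φ) := ⟨SS φ d v, SS_lt v.2 d⟩

theorem SF_inv (d : DD) (v : Fin (NN φ)) : SF φ (iD d) (SF φ d v) = v := Fin.ext (SS_inv d v)

instance (φ : Inst) : Nonempty (Fin (NN φ)) := ⟨⟨0, (Nat.zero_le _).trans_lt (lt_NN φ)⟩⟩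

theorem walk_SF (v : Fin (NN φ)) (l : List DD) : (walk (SF φ) v l).val = walk (SS φ) v.val l := by
  induction l generalizing v with
  | nil => rfl
  | cons i l ih => rw [walk_cons, ih]; rfl

theorem spec_SF (φ : Inst) : Spec (SF φ) 0.996 := by
  intro f hf
  have hS := bij_S iD_iD (SF_inv (φ := φ))
  let B : Fin (NN φ) → ℝ := fun v => Ex fun d => f (SF φ (d, false) v)
  have h1 : ∀ v, Aop (SF φ) f v = (f v + B v) / 2 := by
    intro v
    rw [Aop, Ex_prod', Ex, Fintype.sum_bool]
    have : ∀ d, SF φ (d, true) v = v := fun d => rfl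
    simp only [this, Ex_const, Fintype.card_bool, Nat.cast_ofNat, B]
  have h2 : Ex (fun v => B v ^ 2) ≤ Ex fun v => f v ^ 2 := by
    refine (Ex_mono fun v => Ex_sq_le _).trans_eq ?_
    rw [Ex_comm]
    simp only [Ex_bij (hS _) (fun v => f v ^ 2), Ex_const]
  have h3 : Ex (fun d => Ex fun v => (f v - f (SF φ (d, false) v)) ^ 2) =
      2 * Ex (fun v => f v ^ 2) - 2 * Ex fun v => f v * B v := by
    simp only [sub_sq, Ex_add, Ex_sub, Ex_const, Ex_bij (hS _) (fun v => f v ^ 2), mul_assoc,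
      Ex_mul_left]
    rw [Ex_comm]
    simp only [Ex_mul_left, B]; ring
  have h4 : Ex (fun v => f v ^ 2) / 27 ≤
      Ex (fun d => Ex fun v => (f v - f (SF φ (d, false) v)) ^ 2) := by
    let g : ℕ → ℝ := fun n => if h : n < NN φ then f ⟨n, h⟩ else 0
    have hg : ∀ v : Fin (NN φ), g v = f v := fun v => by simp [g]
    have hp := poincare (kk φ) g
    have hN : (0 : ℝ) < NN φ := by exact_mod_cast (Nat.zero_le _).trans_lt (lt_NN φ)
    have hk : (kk φ : ℝ) * kk φ = NN φ := by simp [NN]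
    change ∑ x ∈ range (NN φ), ∑ y ∈ range (NN φ), _ ≤ _ * ∑ i, ∑ x ∈ range (NN φ), _ at hp
    have hg2 : ∀ i (v : Fin (NN φ)), g (mgg (kk φ) i true v) =
        f (SF φ ((some (false, i), true), false) v) := fun i v => hg (SF φ ((some (false, i), true), false) v)
    simp only [sum_range, hg, hg2, hk] at hp
    have hf' : ∑ v, f v = 0 := by simpa [Ex, hN.ne'] using hf
    have e : ∑ x, ∑ y, (f x - f y) ^ 2 = 2 * NN φ * ∑ x, f x ^ 2 := by
      simp only [sub_sq, sum_add_distrib, sum_sub_distrib, ← mul_sum, ← sum_mul, hf', sum_const,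
        card_univ, Fintype.card_fin, nsmul_eq_mul]
      ring
    have e2 : ∑ i, ∑ v, (f v - f (SF φ ((some (false, i), true), false) v)) ^ 2 ≤
        ∑ d, ∑ v, (f v - f (SF φ (d, false) v)) ^ 2 := by
      rw [← sum_image (s := univ) (g := fun i : Bool × Bool => (some (false, i), true))
        (f := fun d => ∑ v, (f v - f (SF φ (d, false) v)) ^ 2) (fun a _ b _ h => by simpa using h)]
      exact sum_le_sum_of_subset_of_nonneg (subset_univ _) fun _ _ _ => by positivity
    rw [e] at hp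
    simp only [Ex, ← sum_div, Fintype.card_fin]
    rw [show (Fintype.card (Option (Bool × Bool × Bool) × Bool) : ℝ) = 18 by simp]
    have e3 : 2 * ∑ x, f x ^ 2 ≤ 3 * ∑ d, ∑ v, (f v - f (SF φ (d, false) v)) ^ 2 := by
      refine le_of_mul_le_mul_left ?_ hN
      nlinarith
    rw [div_div, div_div, div_le_div_iff₀ (by positivity) (by positivity)]
    nlinarith
  have h5 : Ex (fun v => Aop (SF φ) f v ^ 2) = (Ex (fun v => f v ^ 2) +
      2 * Ex (fun v => f v * B v) + Ex fun v => B v ^ 2) / 4 := by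
    rw [← Ex_mul_left, ← Ex_add, ← Ex_add, ← Ex_div]
    exact Ex_congr fun v => by rw [h1]; ring
  have h6 : 0 ≤ Ex fun v => f v ^ 2 := Ex_nonneg fun _ => sq_nonneg _
  rw [h5]; nlinarith

theorem reg_complete (h : ISat φ) : ∃ σ : ℕ → AA, ∀ v d, CC φ v d (σ v) (σ (SS φ d v)) := by
  obtain ⟨τ, hτ⟩ := h
  have key : ∀ e, ∃ β, e < φ.length → sol β = fun κ => τ (φ.getD e (fun _ => 0) κ) := by
    intro e
    by_cases he : e < φ.length
    · obtain ⟨β, hβ⟩ := exists_sol (hτ _ (List.getElem_mem he))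
      exact ⟨β, fun _ => by rw [hβ, List.getD_eq_getElem _ _ he]⟩
    · exact ⟨0, fun h => absurd h he⟩
  choose β hβ using key
  have hb : ∀ v < 4 * (10 * φ.length), sol (β (v / 10 % φ.length)) (Fin.ofNat 10 v) =
      τ (vr φ (v % (10 * φ.length))) := by
    intro v hv
    rw [hβ _ (Nat.mod_lt _ (by omega)), vr, Nat.mod_mul_right_div_self]
    rw [show Fin.ofNat 10 (v % (10 * φ.length)) = Fin.ofNat 10 v from
      Fin.ext (Nat.mod_mul_right_mod _ _ _)]
  refine ⟨fun v => β (v / 10 % φ.length), fun v d hd => ?_⟩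
  obtain ⟨⟨_ | ⟨g, i⟩, b⟩, c⟩ := d <;> obtain rfl : c = false := hd
  · change β _ = β (cyc φ b v / 10 % _)
    congr 2
    unfold cyc; split_ifs <;> omega
  · rintro (rfl : g = true)
    change sol _ _ = sol (β (cloudS φ i b v / 10 % _)) (Fin.ofNat 10 (cloudS φ i b v))
    by_cases h : v < 4 * (10 * φ.length)
    · rw [hb v h, hb _ (cloudS_spec h i b).1, (cloudS_spec h i b).2.1]
    · rw [cloudS, if_neg h]

theorem majority (k : ℕ) (g : ℕ → ZMod 2) : ∃ t, ∑ j ∈ range (k * k), ind (g j ≠ t) ≤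
    3 * ∑ i, ∑ j ∈ range (k * k), ind (g j ≠ g (mgg k i true j)) := by
  have h1 : ∃ t, 2 * ∑ j ∈ range (k * k), ind (g j ≠ t) ≤ k * k := by
    have : ∑ j ∈ range (k * k), ind (g j ≠ 0) + ∑ j ∈ range (k * k), ind (g j ≠ 1) = k * k := by
      rw [← sum_add_distrib, sum_congr rfl (g := fun _ => (1 : ℝ))]
      · simp
      · intro j _
        by_cases h : g j = 0
        · simp [ind, h]
        · simp [ind, z2_one _ h]
    by_cases h : 2 * ∑ j ∈ range (k * k), ind (g j ≠ 0) ≤ k * k
    · exact ⟨0, h⟩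
    · exact ⟨1, by linarith⟩
  obtain ⟨t, ht⟩ := h1
  refine ⟨t, ?_⟩
  rcases Nat.eq_zero_or_pos k with rfl | hk
  · simp
  have hp := poincare k (fun j => ind (g j ≠ t))
  have hk' : (0 : ℝ) < k * k := by positivity
  set μ := ∑ j ∈ range (k * k), ind (g j ≠ t) with hμ
  have e : ∑ x ∈ range (k * k), ∑ y ∈ range (k * k), (ind (g x ≠ t) - ind (g y ≠ t)) ^ 2 =
      2 * (k * k) * μ - 2 * μ ^ 2 := by
    simp only [sub_sq, ind_sq, sum_add_distrib, sum_sub_distrib, ← mul_sum, ← sum_mul, sum_const,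
      card_range, nsmul_eq_mul, ← hμ, Nat.cast_mul]
    ring
  have e2 : ∑ i, ∑ x ∈ range (k * k), (ind (g x ≠ t) - ind (g (mgg k i true x) ≠ t)) ^ 2 ≤
      ∑ i, ∑ j ∈ range (k * k), ind (g j ≠ g (mgg k i true j)) := by
    refine sum_le_sum fun i _ => sum_le_sum fun j _ => ?_
    by_cases h : g j = g (mgg k i true j)
    · rw [← h, sub_self, ind_neg (by simp)]; simp
    · rw [ind_pos h]
      nlinarith [ind_nonneg (g j ≠ t), ind_le_one (g j ≠ t), ind_nonneg (g (mgg k i true j) ≠ t),
        ind_le_one (g (mgg k i true j) ≠ t)]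
  have h0 : 0 ≤ μ := sum_nonneg fun _ _ => ind_nonneg _
  refine le_of_mul_le_mul_left ?_ hk'
  nlinarith [mul_le_mul_of_nonneg_left e2 hk'.le]

theorem sum_inj_le {s t : Finset ℕ} {e : ℕ → ℕ} (he : Set.InjOn e s) (hst : ∀ j ∈ s, e j ∈ t)
    {h : ℕ → ℝ} (h0 : ∀ v, 0 ≤ h v) : ∑ j ∈ s, h (e j) ≤ ∑ v ∈ t, h v := by
  rw [← sum_image (f := h) he]
  exact sum_le_sum_of_subset_of_nonneg (image_subset_iff.2 hst) fun _ _ _ => h0 _

theorem sum_range_ten (m : ℕ) (g : ℕ → ℝ) :
    ∑ e ∈ range m, ∑ κ ∈ range 10, g (10 * e + κ) = ∑ o ∈ range (10 * m), g o := by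
  induction m with
  | zero => simp
  | succ m ih => rw [sum_range_succ, ih, mul_add, mul_one, sum_range_add]

theorem reg_sound_aux (σ : ℕ → AA) : ∃ τ, viol φ τ ≤
    3 * ∑ d, ∑ v ∈ range (NN φ), ind (¬ CC φ v d (σ v) (σ (SS φ d v))) := by
  let b : ℕ → ZMod 2 := fun v => sol (σ v) (Fin.ofNat 10 v)
  choose τ hτ using fun x => majority (Nat.sqrt (occs φ x).length + 1) (fun j => b (dcd φ x j))
  refine ⟨τ, ?_⟩
  set M := 10 * φ.length with hM
  let W : DD → ℝ := fun d => ∑ v ∈ range (NN φ), ind (¬ CC φ v d (σ v) (σ (SS φ d v)))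
  have hW : ∀ d, 0 ≤ W d := fun d => sum_nonneg fun _ _ => ind_nonneg _
  have hN := lt_NN φ
  have h1 : viol φ τ ≤ ∑ o ∈ range M, ind (σ o ≠ σ (cyc φ true o)) +
      ∑ o ∈ range M, ind (b o ≠ τ (vr φ o)) := by
    rw [← sum_add_distrib, ← sum_range_ten]
    refine sum_le_sum fun e he => ?_
    have he := mem_range.1 he
    by_cases h : ∀ κ < 10, σ (10 * e + κ) = σ (cyc φ true (10 * e + κ)) ∧
        b (10 * e + κ) = τ (vr φ (10 * e + κ))
    · rw [ind_neg (not_not.2 ?_)]
      · exact sum_nonneg fun _ _ => add_nonneg (ind_nonneg _) (ind_nonneg _)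
      have h2 : ∀ κ < 10, σ (10 * e + κ) = σ (10 * e) := by
        intro κ hκ
        induction κ with
        | zero => rfl
        | succ κ ih =>
          rw [← ih (by omega), (h κ (by omega)).1, cyc, if_pos (by omega)]
          congr 1; simp only [cond_true]; omega
      have h3 : (fun κ => τ (φ.getD e (fun _ => 0) κ)) = sol (σ (10 * e)) := by
        funext κ
        have h4 := (h κ κ.2).2
        have h5 : Fin.ofNat 10 (10 * e + κ) = κ := Fin.ext (by simp)
        simp only [b, vr, h5, h2 κ κ.2] at h4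
        rw [h4, show (10 * e + κ) / 10 = e by omega]
      rw [h3]; exact P0_sol _
    · push Not at h
      obtain ⟨κ, hκ, h⟩ := h
      refine le_trans ?_ (single_le_sum (f := fun κ => ind (σ (10 * e + κ) ≠ σ (cyc φ true (10 * e + κ)))
        + ind (b (10 * e + κ) ≠ τ (vr φ (10 * e + κ))))
        (fun _ _ => add_nonneg (ind_nonneg _) (ind_nonneg _)) (mem_range.2 hκ))
      exact ind_union fun _ => by tauto
  have h2 : ∑ o ∈ range M, ind (σ o ≠ σ (cyc φ true o)) ≤ W ((none, true), false) := by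
    refine le_trans (sum_le_sum fun o _ => ?_) (sum_le_sum_of_subset_of_nonneg (s := range M)
      (range_subset_range.2 (by omega)) fun _ _ _ => ind_nonneg _)
    exact ind_mono fun h h' => h (h' rfl)
  have h3 : ∑ o ∈ range M, ind (b o ≠ τ (vr φ o)) ≤
      3 * ∑ i, W ((some (true, i), true), false) := by
    let X := (range M).image (vr φ)
    have hX : ∀ x ∈ X, 0 < (occs φ x).length := fun x hx => by
      obtain ⟨o, ho, rfl⟩ := mem_image.1 hx
      exact List.length_pos_of_mem (mem_occs.2 ⟨mem_range.1 ho, rfl⟩)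
    let h : Bool × Bool → ℕ → ℝ := fun i v => ind (b v ≠ b (cloudS φ i true v))
    rw [← sum_fiberwise_of_maps_to (t := X) (g := vr φ) (fun o ho => mem_image_of_mem _ ho)]
    calc _ ≤ ∑ x ∈ X, 3 * ∑ i, ∑ v ∈ range (4 * M) with vr φ (v % M) = x, h i v := by
          refine sum_le_sum fun x hx => le_trans ?_ ((hτ x).trans ?_)
          · have hc := Nat.lt_succ_sqrt (occs φ x).length
            refine le_trans (sum_le_sum fun o ho => ?_) (sum_inj_le (e := ecd φ x)
              (h := fun j => ind (b (dcd φ x j) ≠ τ x)) ?_ ?_ fun _ => ind_nonneg _)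
            · obtain ⟨a1, rfl⟩ := mem_filter.1 ho
              have := (ecd_spec (φ := φ) (v := o) (by have := mem_range.1 a1; omega)).2
              rw [Nat.mod_eq_of_lt (mem_range.1 a1)] at this
              rw [this]
            · intro o ho o' ho' e
              obtain ⟨a1, a2⟩ := mem_filter.1 ho
              obtain ⟨a3, a4⟩ := mem_filter.1 ho'
              have t1 := (ecd_spec (φ := φ) (v := o) (by have := mem_range.1 a1; omega)).2
              have t2 := (ecd_spec (φ := φ) (v := o') (by have := mem_range.1 a3; omega)).2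
              rw [Nat.mod_eq_of_lt (mem_range.1 a1), a2] at t1
              rw [Nat.mod_eq_of_lt (mem_range.1 a3), a4] at t2
              rw [← t1, e, t2]
            · intro o ho
              obtain ⟨a1, a2⟩ := mem_filter.1 ho
              have a3 := mem_range.1 a1
              have := List.idxOf_lt_length_of_mem (mem_occs.2 ⟨a3, a2⟩)
              rw [mem_range, ecd, Nat.div_eq_of_lt a3, Nat.mod_eq_of_lt a3]
              exact lt_trans (by omega) hc
          · have hc := sq_le_four (hX x hx)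
            refine mul_le_mul_of_nonneg_left (sum_le_sum fun i _ => ?_) (by norm_num)
            refine le_trans (sum_le_sum fun j hj => ?_) (sum_inj_le (e := dcd φ x)
              (h := h i) ?_ ?_ fun _ => ind_nonneg _)
            · simp only [h]
              rw [cloudS_dcd ((mem_range.1 hj).trans_le hc)]
            · intro j hj j' hj' e
              rw [← (dcd_spec ((mem_range.1 hj).trans_le hc)).2.2, e,
                (dcd_spec ((mem_range.1 hj').trans_le hc)).2.2]
            · intro j hj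
              obtain ⟨a1, a2, -⟩ := dcd_spec ((mem_range.1 hj).trans_le hc)
              exact mem_filter.2 ⟨mem_range.2 a1, a2⟩
      _ ≤ _ := by
          rw [← mul_sum, sum_comm]
          refine mul_le_mul_of_nonneg_left (sum_le_sum fun i _ => ?_) (by norm_num)
          rw [sum_fiberwise_of_maps_to (fun v hv => mem_image_of_mem _
            (mem_range.2 (Nat.mod_lt _ (by have := mem_range.1 hv; omega))))]
          refine le_trans (sum_le_sum fun o _ => ?_)
            (sum_le_sum_of_subset_of_nonneg (s := range (4 * M)) (range_subset_range.2 (by omega))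
              fun _ _ _ => ind_nonneg _)
          exact ind_mono fun h h' => h (h' rfl rfl)
  have h4 : W ((none, true), false) + ∑ i, W ((some (true, i), true), false) ≤ ∑ d, W d := by
    rw [← sum_image (s := univ) (g := fun i : Bool × Bool => (((some (true, i), true), false) : DD))
      (f := W) (fun a _ b _ h => by simpa using h), ← sum_insert (by simp)]
    exact sum_le_sum_of_subset_of_nonneg (subset_univ _) fun _ _ _ => hW _
  change _ ≤ 3 * ∑ d, W d
  linarith [hW ((none, true), false)]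

theorem reg_sound (hm : 0 < φ.length) {ε : ℝ} (h : ∀ τ, ε * φ.length ≤ viol φ τ)
    (σ : Fin (NN φ) → AA) : ε / 17280 ≤
      pr fun z : Fin (NN φ) × DD => ¬ CC φ z.1 z.2 (σ z.1) (σ (SF φ z.2 z.1)) := by
  by_cases hε : ε ≤ 0
  · exact le_trans (by linarith) (pr_nonneg _)
  let σ' : ℕ → AA := fun n => if h : n < NN φ then σ ⟨n, h⟩ else 0
  have h1 : ∀ v : Fin (NN φ), σ' v = σ v := fun v => by simp [σ']
  have h2 : ∀ d (v : Fin (NN φ)), σ' (SS φ d v) = σ (SF φ d v) := fun d v => h1 (SF φ d v)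
  obtain ⟨τ, hτ⟩ := reg_sound_aux (φ := φ) σ'
  simp only [sum_range, h1, h2] at hτ
  rw [pr, Ex, Fintype.sum_prod_type_right, Fintype.card_prod, Fintype.card_fin,
    show Fintype.card DD = 36 by simp]
  have hN : (0 : ℝ) < NN φ := by exact_mod_cast (Nat.zero_le _).trans_lt (lt_NN φ)
  have hN2 : (NN φ : ℝ) ≤ 160 * φ.length := by exact_mod_cast NN_le hm
  rw [div_le_div_iff₀ (by norm_num) (by push_cast; positivity)]
  push_cast
  nlinarith [h τ]

end Pool.Agent.Shared.PCP
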